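import Pool.Agent.K6.H74.PK.Stm

set_option autoImplicit false

namespace H74PK

namespace SURaux

variable {K : Type} [Field K]

theorem plucker (x01 x02 x03 x12 x13 x23 : K)
    (hr : x01 * x23 - x02 * x13 + x03 * x12 = 0)
    (hne : ¬ (x01 = 0 ∧ x02 = 0 ∧ x03 = 0 ∧ x12 = 0 ∧ x13 = 0 ∧ x23 = 0)) :
    ∃ v w : Fin 4 → K, mn v w 0 1 = x01 ∧ mn v w 0 2 = x02 ∧ mn v w 0 3 = x03 ∧
      mn v w 1 2 = x12 ∧ mn v w 1 3 = x13 ∧ mn v w 2 3 = x23 := by
  by_cases h01 : x01 = 0
  swap
  · refine ⟨![0, 1, x02 / x01, x03 / x01], ![-x01, 0, x12, x13], ?_, ?_, ?_, ?_, ?_, ?_⟩ <;>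
      simp [mn] <;> field_simp <;> linear_combination (-1 : K) * hr
  by_cases h02 : x02 = 0
  swap
  · refine ⟨![0, x01 / x02, 1, x03 / x02], ![-x02, -x12, 0, x23], ?_, ?_, ?_, ?_, ?_, ?_⟩ <;>
      simp [mn] <;> field_simp <;> linear_combination hr
  by_cases h03 : x03 = 0
  swap
  · refine ⟨![0, x01 / x03, x02 / x03, 1], ![-x03, -x13, -x23, 0], ?_, ?_, ?_, ?_, ?_, ?_⟩ <;>
      simp [mn] <;> field_simp <;> linear_combination (-1 : K) * hr
  by_cases h12 : x12 = 0
  swap
  · refine ⟨![-x01 / x12, 0, 1, x13 / x12], ![-x02, -x12, 0, x23], ?_, ?_, ?_, ?_, ?_, ?_⟩ <;>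
      simp [mn] <;> field_simp <;> linear_combination (-1 : K) * hr
  by_cases h13 : x13 = 0
  swap
  · refine ⟨![-x01 / x13, 0, x12 / x13, 1], ![-x03, -x13, -x23, 0], ?_, ?_, ?_, ?_, ?_, ?_⟩ <;>
      simp [mn] <;> field_simp <;> linear_combination hr
  by_cases h23 : x23 = 0
  swap
  · refine ⟨![-x02 / x23, -x12 / x23, 0, 1], ![-x03, -x13, -x23, 0], ?_, ?_, ?_, ?_, ?_, ?_⟩ <;>
      simp [mn] <;> field_simp <;> linear_combination (-1 : K) * hr
  exact absurd ⟨h01, h02, h03, h12, h13, h23⟩ hne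

end SURaux

theorem t_SUR : S_SUR := by
  intro K _ a b h2 he p hp hQ
  set e := a ^ 2 + b ^ 2 with hedef
  have hQ' : p 0 ^ 2 - e * p 1 ^ 2 - e * p 2 ^ 2 + e ^ 2 * p 3 ^ 2 + p 4 * p 5 = 0 := hQ
  obtain ⟨v, w, e01, e02, e03, e12, e13, e23⟩ := SURaux.plucker
    (p 4 / (2 * e)) ((p 3 + (b * p 1 + a * p 2) / e) / 2) ((p 0 / e - (a * p 1 - b * p 2) / e) / 2)
    (-((p 0 / e + (a * p 1 - b * p 2) / e) / 2)) ((p 3 - (b * p 1 + a * p 2) / e) / 2)
    (-(p 5 / (2 * e)))
    (by
      field_simp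
      linear_combination (-1 : K) * hQ' - (p 1 ^ 2 + p 2 ^ 2) * hedef) (by
      rintro ⟨a1, a2, a3, a4, a5, a6⟩
      apply hp
      have b4 : p 4 = 0 := by field_simp at a1; simpa using a1
      have b5 : p 5 = 0 := by
        rw [neg_eq_zero] at a6; field_simp at a6; simpa using a6
      have c1 : p 3 * e + (b * p 1 + a * p 2) = 0 := by field_simp at a2; linear_combination a2
      have c2 : p 3 * e - (b * p 1 + a * p 2) = 0 := by field_simp at a5; linear_combination a5
      have c3 : p 0 - (a * p 1 - b * p 2) = 0 := by field_simp at a3; linear_combination a3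
      have c4 : p 0 + (a * p 1 - b * p 2) = 0 := by
        rw [neg_eq_zero] at a4; field_simp at a4; linear_combination a4
      have h2e : 2 * e ≠ 0 := mul_ne_zero h2 he
      have b0 : p 0 = 0 := by
        have : 2 * p 0 = 0 := by linear_combination c3 + c4
        exact (mul_eq_zero.1 this).resolve_left h2
      have b3 : p 3 = 0 := by
        have : 2 * e * p 3 = 0 := by linear_combination c1 + c2
        exact (mul_eq_zero.1 this).resolve_left h2e
      have b1 : p 1 = 0 := by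
        have : 2 * e * p 1 = 0 := by
          linear_combination a * (c4 - c3) + b * (c1 - c2) + 2 * p 1 * hedef
        exact (mul_eq_zero.1 this).resolve_left h2e
      have b2 : p 2 = 0 := by
        have : 2 * e * p 2 = 0 := by
          linear_combination a * (c1 - c2) - b * (c4 - c3) + 2 * p 2 * hedef
        exact (mul_eq_zero.1 this).resolve_left h2e
      funext i
      fin_cases i <;> simp [b0, b1, b2, b3, b4, b5])
  refine ⟨v, w, ?_⟩
  have k0 : e * (-(mn v w 1 2) + mn v w 0 3) = p 0 := by rw [e12, e03]; field_simp; ring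
  have k1 : a * (-(mn v w 1 2) - mn v w 0 3) + b * (mn v w 0 2 - mn v w 1 3) = p 1 := by
    rw [e12, e03, e02, e13]; field_simp; linear_combination (-2 * p 1) * hedef
  have k2 : a * (mn v w 0 2 - mn v w 1 3) - b * (-(mn v w 1 2) - mn v w 0 3) = p 2 := by
    rw [e12, e03, e02, e13]; field_simp; linear_combination (-2 * p 2) * hedef
  have k3 : mn v w 0 2 + mn v w 1 3 = p 3 := by rw [e02, e13]; field_simp; ring
  have k4 : 2 * e * mn v w 0 1 = p 4 := by rw [e01]; field_simp
  have k5 : -(2 * e * mn v w 2 3) = p 5 := by rw [e23]; field_simp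
  unfold plu
  rw [← hedef, k0, k1, k2, k3, k4, k5]
  funext i
  fin_cases i <;> rfl

end H74PK
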