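import Pool.Agent.K6.H74.PK.Stm

namespace H74PK

section caps
variable {K : Type} [Field K]

theorem ns {e : K} (he : ∀ x : K, x ^ 2 ≠ e) {x y : K} (h : x ^ 2 = e * y ^ 2) : x = 0 ∧ y = 0 := by
  by_cases hy : y = 0
  · subst hy
    refine ⟨?_, rfl⟩
    have : x ^ 2 = 0 := by rw [h]; ring
    exact pow_eq_zero_iff (two_ne_zero) |>.1 this
  · exfalso
    apply he (x / y)
    rw [div_pow, h]
    field_simp

theorem e_ne {e : K} (he : ∀ x : K, x ^ 2 ≠ e) : e ≠ 0 := by
  rintro rfl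
  exact he 0 (by ring)

theorem smul_of {p q : Fin 6 → K} (j : Fin 6) (hj : p j ≠ 0)
    (h : ∀ i, q j * p i = p j * q i) : ∃ c : K, q = c • p := by
  refine ⟨q j / p j, ?_⟩
  funext i
  show q i = q j / p j * p i
  rw [div_mul_eq_mul_div, h i, mul_div_cancel_left₀ _ hj]

theorem QF_d (e x y : K) (p q : Fin 6 → K) (hp : QF e p = 0) (hq : QF e q = 0)
    (hb : BF e p q = 0) : QF e (x • p - y • q) = 0 := by
  have h1 : QF e (x • p - y • q) = x ^ 2 * QF e p + y ^ 2 * QF e q - x * y * BF e p q := by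
    simp only [QF, BF, Pi.sub_apply, Pi.smul_apply, smul_eq_mul]
    ring
  rw [h1, hp, hq, hb]
  ring

theorem fin5 {e : K} {p q : Fin 6 → K} (hp : QF e p = 0) (hq : QF e q = 0) (hp5 : p 5 ≠ 0)
    (hq5 : q 5 ≠ 0) (h0 : q 5 * p 0 = p 5 * q 0) (h1 : q 5 * p 1 = p 5 * q 1)
    (h2 : q 5 * p 2 = p 5 * q 2) (h3 : q 5 * p 3 = p 5 * q 3) : ∃ c : K, q = c • p := by
  have h4 : q 5 * p 4 = p 5 * q 4 := by
    have h5 : p 5 * q 5 * (p 5 * q 4 - q 5 * p 4) = 0 := by
      unfold QF at hp hq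
      linear_combination (p 5) ^ 2 * hq - (q 5) ^ 2 * hp + (q 5 * p 0 + p 5 * q 0) * h0
        - e * (q 5 * p 1 + p 5 * q 1) * h1 - e * (q 5 * p 2 + p 5 * q 2) * h2
        + e ^ 2 * (q 5 * p 3 + p 5 * q 3) * h3
    have h6 := (mul_eq_zero.1 h5).resolve_left (mul_ne_zero hp5 hq5)
    linear_combination -h6
  refine smul_of 5 hp5 ?_
  intro i
  fin_cases i
  · exact h0
  · exact h1
  · exact h2
  · exact h3
  · exact h4
  · exact mul_comm _ _

theorem ne_zero_of {p : Fin 6 → K} (hp : p ≠ 0) (h0 : p 0 = 0) (h1 : p 1 = 0) (h2 : p 2 = 0)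
    (h3 : p 3 = 0) (h4 : p 4 = 0) (h5 : p 5 = 0) : False := by
  apply hp
  funext i
  fin_cases i
  · exact h0
  · exact h1
  · exact h2
  · exact h3
  · exact h4
  · exact h5

end caps

theorem t_CSH : S_CSH := by
  intro K _ e τ h2 he p q hp0 hq0 hp hq hX hY hb
  have he0 := e_ne he
  obtain ⟨a0, a1⟩ := hX
  obtain ⟨b0, b1⟩ := hY
  have key : ∀ r : Fin 6 → K, QF e r = 0 → r 0 = 0 → τ * r 5 = 2 * e * r 2 → r 5 = 0 →
      r 1 = 0 ∧ r 2 = 0 ∧ r 3 = 0 := by
    intro r hr r0 r1 r5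
    have c2 : r 2 = 0 := by
      have : 2 * e * r 2 = 0 := by rw [← r1, r5, mul_zero]
      exact (mul_eq_zero.1 this).resolve_left (mul_ne_zero h2 he0)
    have c3 : e * (r 1 ^ 2 - e * r 3 ^ 2) = 0 := by
      unfold QF at hr
      rw [r0, c2, r5] at hr
      linear_combination -hr
    have c4 := (mul_eq_zero.1 c3).resolve_left he0
    obtain ⟨c5, c6⟩ := ns he (x := r 1) (y := r 3) (by linear_combination c4)
    exact ⟨c5, c2, c6⟩
  by_cases hp5 : p 5 = 0
  · obtain ⟨p1, p2, p3⟩ := key p hp a0 a1 hp5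
    have p4 : p 4 ≠ 0 := fun h => ne_zero_of hp0 a0 p1 p2 p3 h hp5
    have hq5 : q 5 = 0 := by
      unfold BF at hb
      rw [a0, p1, p2, p3, hp5] at hb
      have : p 4 * q 5 = 0 := by linear_combination hb
      exact (mul_eq_zero.1 this).resolve_left p4
    obtain ⟨q1, q2, q3⟩ := key q hq b0 b1 hq5
    refine smul_of 4 p4 ?_
    intro i
    fin_cases i
    · show q 4 * p 0 = p 4 * q 0
      rw [a0, b0]; ring
    · show q 4 * p 1 = p 4 * q 1
      rw [p1, q1]; ring
    · show q 4 * p 2 = p 4 * q 2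
      rw [p2, q2]; ring
    · show q 4 * p 3 = p 4 * q 3
      rw [p3, q3]; ring
    · exact mul_comm _ _
    · show q 4 * p 5 = p 4 * q 5
      rw [hp5, hq5]; ring
  · by_cases hq5 : q 5 = 0
    · exfalso
      obtain ⟨q1, q2, q3⟩ := key q hq b0 b1 hq5
      have q4 : q 4 ≠ 0 := fun h => ne_zero_of hq0 b0 q1 q2 q3 h hq5
      unfold BF at hb
      rw [b0, q1, q2, q3, hq5] at hb
      have : p 5 * q 4 = 0 := by linear_combination hb
      exact (mul_ne_zero hp5 q4) this
    · have hd := QF_d e (q 5) (p 5) p q hp hq hb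
      have d2 : q 5 * p 2 - p 5 * q 2 = 0 := by
        have : 2 * e * (q 5 * p 2 - p 5 * q 2) = 0 := by
          linear_combination (-(q 5)) * a1 + p 5 * b1
        exact (mul_eq_zero.1 this).resolve_left (mul_ne_zero h2 he0)
      have d3 : e * ((q 5 * p 1 - p 5 * q 1) ^ 2 - e * (q 5 * p 3 - p 5 * q 3) ^ 2) = 0 := by
        simp only [QF, Pi.sub_apply, Pi.smul_apply, smul_eq_mul] at hd
        rw [a0, b0, d2] at hd
        linear_combination -hd
      obtain ⟨d4, d5⟩ := ns he (x := q 5 * p 1 - p 5 * q 1) (y := q 5 * p 3 - p 5 * q 3)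
        (by linear_combination (mul_eq_zero.1 d3).resolve_left he0)
      exact fin5 hp hq hp5 hq5 (by rw [a0, b0]; ring) (by linear_combination d4)
        (by linear_combination d2) (by linear_combination d5)

theorem t_CYH : S_CYH := by
  intro K _ e τ h2 he p q hp0 hq0 hp hq hX hY hb
  have he0 := e_ne he
  have key : ∀ r : Fin 6 → K, QF e r = 0 → r 0 = 0 → r 1 = 0 → τ * r 5 ≠ 2 * e * r 2 →
      r 5 ≠ 0 := by
    intro r hr r0 r1 r2 r5
    apply r2
    have c3 : e * (r 2 ^ 2 - e * r 3 ^ 2) = 0 := by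
      unfold QF at hr
      rw [r0, r1, r5] at hr
      linear_combination -hr
    obtain ⟨c5, c6⟩ := ns he (x := r 2) (y := r 3)
      (by linear_combination (mul_eq_zero.1 c3).resolve_left he0)
    rw [r5, c5]; ring
  rcases hX with ⟨a0, a1, a2⟩ | ⟨a5, a3, a4, a2⟩ <;> rcases hY with ⟨b0, b1, b2⟩ | ⟨b5, b3, b4, b2⟩
  · have hp5 := key p hp a0 a1 a2
    have hq5 := key q hq b0 b1 b2
    have hd := QF_d e (q 5) (p 5) p q hp hq hb
    have d3 : e * ((q 5 * p 2 - p 5 * q 2) ^ 2 - e * (q 5 * p 3 - p 5 * q 3) ^ 2) = 0 := by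
      simp only [QF, Pi.sub_apply, Pi.smul_apply, smul_eq_mul] at hd
      rw [a0, b0, a1, b1] at hd
      linear_combination -hd
    obtain ⟨d4, d5⟩ := ns he (x := q 5 * p 2 - p 5 * q 2) (y := q 5 * p 3 - p 5 * q 3)
      (by linear_combination (mul_eq_zero.1 d3).resolve_left he0)
    exact fin5 hp hq hp5 hq5 (by rw [a0, b0]; ring) (by rw [a1, b1]; ring)
      (by linear_combination d4) (by linear_combination d5)
  · exfalso
    unfold BF at hb
    rw [a0, a1, b3, b5, b4] at hb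
    apply mul_ne_zero b2 (sub_ne_zero.2 a2)
    linear_combination hb
  · exfalso
    unfold BF at hb
    rw [b0, b1, a3, a5, a4] at hb
    apply mul_ne_zero a2 (sub_ne_zero.2 b2)
    linear_combination hb
  · have hd := QF_d e (q 2) (p 2) p q hp hq hb
    have d3 : (q 2 * p 0 - p 2 * q 0) ^ 2 - e * (q 2 * p 1 - p 2 * q 1) ^ 2 = 0 := by
      simp only [QF, Pi.sub_apply, Pi.smul_apply, smul_eq_mul] at hd
      rw [a3, b3, a5, b5] at hd
      linear_combination hd
    obtain ⟨d4, d5⟩ := ns he (x := q 2 * p 0 - p 2 * q 0) (y := q 2 * p 1 - p 2 * q 1)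
      (by linear_combination d3)
    refine smul_of 2 a2 ?_
    intro i
    fin_cases i
    · show q 2 * p 0 = p 2 * q 0
      linear_combination d4
    · show q 2 * p 1 = p 2 * q 1
      linear_combination d5
    · exact mul_comm _ _
    · show q 2 * p 3 = p 2 * q 3
      rw [a3, b3]; ring
    · show q 2 * p 4 = p 2 * q 4
      rw [a4, b4]; ring
    · show q 2 * p 5 = p 2 * q 5
      rw [a5, b5]; ring

theorem t_CXX : S_CXX := by
  intro K _ e h2 he p q hp0 hq0 hp hq hX hY hb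
  have he0 := e_ne he
  have keyA : ∀ r : Fin 6 → K, QF e r = 0 → r 0 = 0 → r 2 = 0 → r 5 = 0 → r 1 = 0 ∧ r 3 = 0 := by
    intro r hr r0 r2 r5
    have c3 : e * (r 1 ^ 2 - e * r 3 ^ 2) = 0 := by
      unfold QF at hr
      rw [r0, r2, r5] at hr
      linear_combination -hr
    exact ns he (by linear_combination (mul_eq_zero.1 c3).resolve_left he0)
  have keyB : ∀ r : Fin 6 → K, r ≠ 0 → QF e r = 0 → r 1 = 0 → r 3 = 0 → r 5 = r 4 → r 4 ≠ 0 := by
    intro r hr0 hr r1 r3 r5 r4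
    have c3 : r 0 ^ 2 - e * r 2 ^ 2 = 0 := by
      unfold QF at hr
      rw [r1, r3, r5, r4] at hr
      linear_combination hr
    obtain ⟨c4, c5⟩ := ns he (x := r 0) (y := r 2) (by linear_combination c3)
    exact ne_zero_of hr0 c4 r1 c5 r3 r4 (by rw [r5, r4])
  rcases hX with ⟨a0, a2, a5⟩ | ⟨a1, a3, a5⟩ <;> rcases hY with ⟨b0, b2, b5⟩ | ⟨b1, b3, b5⟩
  · by_cases hp5 : p 5 = 0
    · obtain ⟨p1, p3⟩ := keyA p hp a0 a2 hp5
      have p4 : p 4 ≠ 0 := fun h => ne_zero_of hp0 a0 p1 a2 p3 h hp5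
      have hq5 : q 5 = 0 := by
        unfold BF at hb
        rw [a0, p1, a2, p3, hp5] at hb
        have : p 4 * q 5 = 0 := by linear_combination hb
        exact (mul_eq_zero.1 this).resolve_left p4
      obtain ⟨q1, q3⟩ := keyA q hq b0 b2 hq5
      refine smul_of 4 p4 ?_
      intro i
      fin_cases i
      · show q 4 * p 0 = p 4 * q 0
        rw [a0, b0]; ring
      · show q 4 * p 1 = p 4 * q 1
        rw [p1, q1]; ring
      · show q 4 * p 2 = p 4 * q 2
        rw [a2, b2]; ring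
      · show q 4 * p 3 = p 4 * q 3
        rw [p3, q3]; ring
      · exact mul_comm _ _
      · show q 4 * p 5 = p 4 * q 5
        rw [hp5, hq5]; ring
    · by_cases hq5 : q 5 = 0
      · exfalso
        obtain ⟨q1, q3⟩ := keyA q hq b0 b2 hq5
        have q4 : q 4 ≠ 0 := fun h => ne_zero_of hq0 b0 q1 b2 q3 h hq5
        unfold BF at hb
        rw [b0, q1, b2, q3, hq5] at hb
        have : p 5 * q 4 = 0 := by linear_combination hb
        exact (mul_ne_zero hp5 q4) this
      · have hd := QF_d e (q 5) (p 5) p q hp hq hb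
        have d3 : e * ((q 5 * p 1 - p 5 * q 1) ^ 2 - e * (q 5 * p 3 - p 5 * q 3) ^ 2) = 0 := by
          simp only [QF, Pi.sub_apply, Pi.smul_apply, smul_eq_mul] at hd
          rw [a0, b0, a2, b2] at hd
          linear_combination -hd
        obtain ⟨d4, d5⟩ := ns he (x := q 5 * p 1 - p 5 * q 1) (y := q 5 * p 3 - p 5 * q 3)
          (by linear_combination (mul_eq_zero.1 d3).resolve_left he0)
        exact fin5 hp hq hp5 hq5 (by rw [a0, b0]; ring) (by linear_combination d4)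
          (by rw [a2, b2]; ring) (by linear_combination d5)
  · exfalso
    have q4 := keyB q hq0 hq b1 b3 b5
    unfold BF at hb
    rw [a0, a2, b1, b3, b5] at hb
    apply mul_ne_zero q4 (fun h => a5 (eq_neg_of_add_eq_zero_left h))
    linear_combination hb
  · exfalso
    have p4 := keyB p hp0 hp a1 a3 a5
    unfold BF at hb
    rw [b0, b2, a1, a3, a5] at hb
    apply mul_ne_zero p4 (fun h => b5 (eq_neg_of_add_eq_zero_left h))
    linear_combination hb
  · have p4 := keyB p hp0 hp a1 a3 a5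
    have hd := QF_d e (q 4) (p 4) p q hp hq hb
    have d3 : (q 4 * p 0 - p 4 * q 0) ^ 2 - e * (q 4 * p 2 - p 4 * q 2) ^ 2 = 0 := by
      simp only [QF, Pi.sub_apply, Pi.smul_apply, smul_eq_mul] at hd
      rw [a1, b1, a3, b3] at hd
      linear_combination hd
    obtain ⟨d4, d5⟩ := ns he (x := q 4 * p 0 - p 4 * q 0) (y := q 4 * p 2 - p 4 * q 2)
      (by linear_combination d3)
    refine smul_of 4 p4 ?_
    intro i
    fin_cases i
    · show q 4 * p 0 = p 4 * q 0
      linear_combination d4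
    · show q 4 * p 1 = p 4 * q 1
      rw [a1, b1]; ring
    · show q 4 * p 2 = p 4 * q 2
      linear_combination d5
    · show q 4 * p 3 = p 4 * q 3
      rw [a3, b3]; ring
    · exact mul_comm _ _
    · show q 4 * p 5 = p 4 * q 5
      rw [a5, b5]; ring

theorem t_CTT : S_CTT := by
  intro K _ e h2 he p q hp0 hq0 hp hq hX hY hb
  have he0 := e_ne he
  have keyD : ∀ r : Fin 6 → K, r ≠ 0 → QF e r = 0 → r 0 = 0 → r 2 = 0 → r 5 = -r 4 → r 4 ≠ 0 := by
    intro r hr0 hr r0 r2 r5 r4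
    have c3 : e * (r 1 ^ 2 - e * r 3 ^ 2) = 0 := by
      unfold QF at hr
      rw [r0, r2, r5, r4] at hr
      linear_combination -hr
    obtain ⟨c4, c5⟩ := ns he (x := r 1) (y := r 3)
      (by linear_combination (mul_eq_zero.1 c3).resolve_left he0)
    exact ne_zero_of hr0 r0 c4 r2 c5 r4 (by rw [r5, r4, neg_zero])
  have keyA : ∀ r : Fin 6 → K, QF e r = 0 → r 1 = 0 → r 3 = 0 → r 0 ≠ 0 → r 5 ≠ 0 := by
    intro r hr r1 r3 r0 r5
    apply r0
    have c3 : r 0 ^ 2 - e * r 2 ^ 2 = 0 := by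
      unfold QF at hr
      rw [r1, r3, r5] at hr
      linear_combination hr
    exact (ns he (x := r 0) (y := r 2) (by linear_combination c3)).1
  have keyDC : ∀ r s : Fin 6 → K, r ≠ 0 → QF e r = 0 → QF e s = 0 → r 0 = 0 → r 2 = 0 →
      r 5 = -r 4 → s 5 = 0 → s 4 = 0 → s 2 = 0 → s 0 ≠ 0 → BF e r s = 0 → False := by
    intro r s hr0 hr hs r0 r2 r5 s5 s4 s2 s0 hrs
    have r4 := keyD r hr0 hr r0 r2 r5
    have c1 : r 1 * s 1 - e * r 3 * s 3 = 0 := by
      unfold BF at hrs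
      rw [r0, r2, s5, s4] at hrs
      have : (2 * e) * (r 1 * s 1 - e * r 3 * s 3) = 0 := by linear_combination -hrs
      exact (mul_eq_zero.1 this).resolve_left (mul_ne_zero h2 he0)
    have c2 : r 4 ^ 2 = -(e * (r 1 ^ 2 - e * r 3 ^ 2)) := by
      unfold QF at hr
      rw [r0, r2, r5] at hr
      linear_combination -hr
    have c3 : s 0 ^ 2 = e * (s 1 ^ 2 - e * s 3 ^ 2) := by
      unfold QF at hs
      rw [s2, s5, s4] at hs
      linear_combination hs
    have c4 : (r 4 * s 0) ^ 2 = e * (e * (r 1 * s 3 - r 3 * s 1)) ^ 2 := by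
      rw [mul_pow, c2, c3]
      linear_combination (-(e ^ 2) * (r 1 * s 1 - e * r 3 * s 3)) * c1
    exact mul_ne_zero r4 s0 (ns he c4).1
  have hb' : BF e q p = 0 := by
    rw [← hb]
    unfold BF
    ring
  rcases hX with ⟨a0, a2, a5⟩ | ⟨a1, a3, a0, a5⟩ | ⟨a5, a4, a2, a0⟩ <;>
    rcases hY with ⟨b0, b2, b5⟩ | ⟨b1, b3, b0, b5⟩ | ⟨b5, b4, b2, b0⟩
  · have p4 := keyD p hp0 hp a0 a2 a5
    have hd := QF_d e (q 4) (p 4) p q hp hq hb
    have d3 : e * ((q 4 * p 1 - p 4 * q 1) ^ 2 - e * (q 4 * p 3 - p 4 * q 3) ^ 2) = 0 := by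
      simp only [QF, Pi.sub_apply, Pi.smul_apply, smul_eq_mul] at hd
      rw [a0, b0, a2, b2] at hd
      linear_combination -hd
    obtain ⟨d4, d5⟩ := ns he (x := q 4 * p 1 - p 4 * q 1) (y := q 4 * p 3 - p 4 * q 3)
      (by linear_combination (mul_eq_zero.1 d3).resolve_left he0)
    refine smul_of 4 p4 ?_
    intro i
    fin_cases i
    · show q 4 * p 0 = p 4 * q 0
      rw [a0, b0]; ring
    · show q 4 * p 1 = p 4 * q 1
      linear_combination d4
    · show q 4 * p 2 = p 4 * q 2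
      rw [a2, b2]; ring
    · show q 4 * p 3 = p 4 * q 3
      linear_combination d5
    · exact mul_comm _ _
    · show q 4 * p 5 = p 4 * q 5
      rw [a5, b5]; ring
  · exfalso
    have p4 := keyD p hp0 hp a0 a2 a5
    unfold BF at hb
    rw [a0, a2, b1, b3, a5] at hb
    apply mul_ne_zero p4 (sub_ne_zero.2 b5)
    linear_combination hb
  · exact (keyDC p q hp0 hp hq a0 a2 a5 b5 b4 b2 b0 hb).elim
  · exfalso
    have q4 := keyD q hq0 hq b0 b2 b5
    unfold BF at hb
    rw [b0, b2, a1, a3, b5] at hb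
    apply mul_ne_zero q4 (sub_ne_zero.2 a5)
    linear_combination hb
  · have hp5 := keyA p hp a1 a3 a0
    have hq5 := keyA q hq b1 b3 b0
    have hd := QF_d e (q 5) (p 5) p q hp hq hb
    have d3 : (q 5 * p 0 - p 5 * q 0) ^ 2 - e * (q 5 * p 2 - p 5 * q 2) ^ 2 = 0 := by
      simp only [QF, Pi.sub_apply, Pi.smul_apply, smul_eq_mul] at hd
      rw [a1, b1, a3, b3] at hd
      linear_combination hd
    obtain ⟨d4, d5⟩ := ns he (x := q 5 * p 0 - p 5 * q 0) (y := q 5 * p 2 - p 5 * q 2)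
      (by linear_combination d3)
    exact fin5 hp hq hp5 hq5 (by linear_combination d4) (by rw [a1, b1]; ring)
      (by linear_combination d5) (by rw [a3, b3]; ring)
  · exfalso
    unfold BF at hb
    rw [a1, a3, b2, b5, b4] at hb
    apply mul_ne_zero h2 (mul_ne_zero a0 b0)
    linear_combination hb
  · exact (keyDC q p hq0 hq hp b0 b2 b5 a5 a4 a2 a0 hb').elim
  · exfalso
    unfold BF at hb
    rw [b1, b3, a2, a5, a4] at hb
    apply mul_ne_zero h2 (mul_ne_zero a0 b0)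
    linear_combination hb
  · have hd := QF_d e (q 0) (p 0) p q hp hq hb
    have d3 : e * ((q 0 * p 1 - p 0 * q 1) ^ 2 - e * (q 0 * p 3 - p 0 * q 3) ^ 2) = 0 := by
      simp only [QF, Pi.sub_apply, Pi.smul_apply, smul_eq_mul] at hd
      rw [a2, b2, a4, b4, a5, b5] at hd
      linear_combination -hd
    obtain ⟨d4, d5⟩ := ns he (x := q 0 * p 1 - p 0 * q 1) (y := q 0 * p 3 - p 0 * q 3)
      (by linear_combination (mul_eq_zero.1 d3).resolve_left he0)
    refine smul_of 0 a0 ?_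
    intro i
    fin_cases i
    · exact mul_comm _ _
    · show q 0 * p 1 = p 0 * q 1
      linear_combination d4
    · show q 0 * p 2 = p 0 * q 2
      rw [a2, b2]; ring
    · show q 0 * p 3 = p 0 * q 3
      linear_combination d5
    · show q 0 * p 4 = p 0 * q 4
      rw [a4, b4]; ring
    · show q 0 * p 5 = p 0 * q 5
      rw [a5, b5]; ring

end H74PK
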