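import Pool.Agent.K6.H74.PK.Stm

/-! # Piece CONE (by helper90): the classes are cones -/

namespace H74PK

namespace CONE

variable {K : Type} [Field K]

lemma sc (e z0 z1 t : K) : Cone (SC e z0 z1 t) := by
  intro p c hc h
  rcases h with ⟨h1, h2, h3⟩ | ⟨h1, d, hd, h2, h3, h4⟩
  · refine Or.inl ⟨?_, ?_, ?_⟩
    · rcases h1 with h1 | h1
      · exact Or.inl (by simpa using And.intro hc h1)
      · exact Or.inr (by simpa using And.intro hc h1)
    · simp only [Pi.smul_apply, smul_eq_mul]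
      linear_combination c * h2
    · simp only [Pi.smul_apply, smul_eq_mul]
      linear_combination c * h3
  · refine Or.inr ⟨?_, c * d, mul_ne_zero hc hd, ?_, ?_, ?_⟩
    · simp [h1]
    · simp only [Pi.smul_apply, smul_eq_mul, h2]; ring
    · simp only [Pi.smul_apply, smul_eq_mul, h3]; ring
    · simp only [Pi.smul_apply, smul_eq_mul, h4]; ring

lemma sh (e τ : K) : Cone (SH e τ) := by
  intro p c hc h
  obtain ⟨h1, h2⟩ := h
  refine ⟨by simp [h1], ?_⟩
  simp only [Pi.smul_apply, smul_eq_mul]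
  linear_combination c * h2

lemma yh (e τ : K) : Cone (YH e τ) := by
  intro p c hc h
  rcases h with ⟨h1, h2, h3⟩ | ⟨h1, h2, h3, h4⟩
  · refine Or.inl ⟨by simp [h1], by simp [h2], ?_⟩
    simp only [Pi.smul_apply, smul_eq_mul]
    intro h
    exact h3 (mul_left_cancel₀ hc (by linear_combination h))
  · refine Or.inr ⟨by simp [h1], by simp [h2], ?_, ?_⟩
    · simp only [Pi.smul_apply, smul_eq_mul]
      linear_combination c * h3
    · simpa using And.intro hc h4

lemma tt : Cone (TT (K := K)) := by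
  intro p c hc h
  rcases h with ⟨h1, h2, h3⟩ | ⟨h1, h2, h3, h4⟩ | ⟨h1, h2, h3, h4⟩
  · refine Or.inl ⟨by simp [h1], by simp [h2], ?_⟩
    simp only [Pi.smul_apply, smul_eq_mul]
    linear_combination c * h3
  · refine Or.inr (Or.inl ⟨by simp [h1], by simp [h2], by simpa using And.intro hc h3, ?_⟩)
    simp only [Pi.smul_apply, smul_eq_mul]
    intro h
    exact h4 (mul_left_cancel₀ hc h)
  · exact Or.inr (Or.inr ⟨by simp [h1], by simp [h2], by simp [h3],
      by simpa using And.intro hc h4⟩)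

lemma xx : Cone (XX (K := K)) := by
  intro p c hc h
  rcases h with ⟨h1, h2, h3⟩ | ⟨h1, h2, h3⟩
  · refine Or.inl ⟨by simp [h1], by simp [h2], ?_⟩
    simp only [Pi.smul_apply, smul_eq_mul]
    intro h
    exact h3 (mul_left_cancel₀ hc (by linear_combination h))
  · refine Or.inr ⟨by simp [h1], by simp [h2], ?_⟩
    simp only [Pi.smul_apply, smul_eq_mul, h3]

end CONE

theorem t_CONE : S_CONE := by
  intro K _ e τ
  refine ⟨?_, ?_, CONE.sh e τ, CONE.tt, CONE.sc e⟩
  · rintro (⟨r, t⟩ | t | u)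
    · intro p c hc h
      rcases h with ⟨h1, h2⟩ | ⟨h1, h2⟩
      · exact Or.inl ⟨h1, CONE.yh e τ p c hc h2⟩
      · exact Or.inr ⟨h1, CONE.sc e 1 r t p c hc h2⟩
    · exact CONE.sc e 0 1 t
    · exact CONE.sh e τ
  · rintro (⟨r, t⟩ | t | u)
    · intro p c hc h
      rcases h with ⟨h1, h2⟩ | ⟨h1, h2⟩
      · exact Or.inl ⟨h1, CONE.yh e 0 p c hc h2⟩
      · exact Or.inr ⟨h1, CONE.sc e 1 r t p c hc h2⟩
    · intro p c hc h
      rcases h with ⟨h1, h2⟩ | ⟨h1, h2⟩
      · exact Or.inl ⟨h1, CONE.tt p c hc h2⟩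
      · exact Or.inr ⟨h1, CONE.sc e 0 1 t p c hc h2⟩
    · exact CONE.xx

end H74PK
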