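import Pool.Agent.K6.H74.PK.Stm

set_option autoImplicit false

namespace H74PK

namespace CSC

variable {K : Type} [Field K]

theorem nz {e : K} (he : ∀ x : K, x ^ 2 ≠ e) {x y : K}
    (h : x ^ 2 = e * y ^ 2) : x = 0 ∧ y = 0 := by
  by_cases hy : y = 0
  · rw [hy] at h
    have : x ^ 2 = 0 := by rw [h]; ring
    exact ⟨pow_eq_zero_iff (two_ne_zero) |>.1 this, hy⟩
  · exfalso
    apply he (x / y)
    rw [div_pow, h]
    field_simp

theorem N_ne {e z0 z1 : K} (he : ∀ x : K, x ^ 2 ≠ e) (hz : z0 ≠ 0 ∨ z1 ≠ 0) :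
    z0 ^ 2 - e * z1 ^ 2 ≠ 0 := by
  intro h
  have := nz he (show z0 ^ 2 = e * z1 ^ 2 by linear_combination h)
  rcases hz with h | h
  · exact h this.1
  · exact h this.2

theorem param {e z0 z1 x0 x1 : K} (hN : z0 ^ 2 - e * z1 ^ 2 ≠ 0) (h : x0 * z0 = e * x1 * z1) :
    ∃ l : K, x0 = l * (e * z1) ∧ x1 = l * z0 := by
  refine ⟨(x1 * z0 - x0 * z1) / (z0 ^ 2 - e * z1 ^ 2), ?_, ?_⟩
  · rw [div_mul_eq_mul_div, eq_div_iff hN]
    linear_combination z0 * h
  · rw [div_mul_eq_mul_div, eq_div_iff hN]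
    linear_combination z1 * h

theorem lemA {e z0 z1 x0 x1 y0 y1 : K} (he : ∀ x : K, x ^ 2 ≠ e) (hz : z0 ≠ 0 ∨ z1 ≠ 0)
    (hx : x0 * z0 = e * x1 * z1) (hy : y0 * z0 = e * y1 * z1)
    (hQ : x0 ^ 2 - e * x1 ^ 2 - e * y0 ^ 2 + e ^ 2 * y1 ^ 2 = 0) :
    x0 = 0 ∧ x1 = 0 ∧ y0 = 0 ∧ y1 = 0 := by
  have he0 : e ≠ 0 := fun h => he 0 (by rw [h]; ring)
  have hN := N_ne he hz
  obtain ⟨l, hl0, hl1⟩ := param hN hx
  obtain ⟨m, hm0, hm1⟩ := param hN hy
  rw [hl0, hl1, hm0, hm1] at hQ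
  have h1 : (e * (z0 ^ 2 - e * z1 ^ 2)) * (l ^ 2 - e * m ^ 2) = 0 := by linear_combination -hQ
  have h2 : l ^ 2 = e * m ^ 2 := by
    rcases mul_eq_zero.1 h1 with h | h
    · exact absurd h (mul_ne_zero he0 hN)
    · linear_combination h
  obtain ⟨h3, h4⟩ := nz he h2
  rw [hl0, hl1, hm0, hm1, h3, h4]
  simp

end CSC

theorem t_CSC : S_CSC := by
  intro K _ e z0 z1 t h2 he hz p q hp hq hQp hQq hXp hXq hB
  have he0 : e ≠ 0 := fun h => he 0 (by rw [h]; ring)
  have h2e : 2 * e ≠ 0 := mul_ne_zero h2 he0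
  have hN := CSC.N_ne he hz
  unfold QF at hQp hQq
  unfold BF at hB
  have hne5 : ∀ p : Fin 6 → K, p 0 ^ 2 - e * p 1 ^ 2 - e * p 2 ^ 2 + e ^ 2 * p 3 ^ 2 + p 4 * p 5 = 0 →
      (p 0 ≠ 0 ∨ p 1 ≠ 0) → p 0 * z0 = e * p 1 * z1 →
      t * p 5 = 2 * e * (p 2 * z0 - e * p 3 * z1) → p 5 ≠ 0 := by
    intro p hQ h01 h1 h3 h5
    have h4 : p 2 * z0 = e * p 3 * z1 := by
      have h6 : 2 * e * (p 2 * z0 - e * p 3 * z1) = 0 := by rw [← h3, h5, mul_zero]
      rcases mul_eq_zero.1 h6 with h | h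
      · exact absurd h h2e
      · linear_combination h
    rw [h5] at hQ
    obtain ⟨a0, a1, -, -⟩ := CSC.lemA he hz h1 h4 (by linear_combination hQ)
    rcases h01 with h | h
    · exact h a0
    · exact h a1
  have mixed : ∀ p q : Fin 6 → K,
      q 0 ^ 2 - e * q 1 ^ 2 - e * q 2 ^ 2 + e ^ 2 * q 3 ^ 2 + q 4 * q 5 = 0 →
      (p 0 ≠ 0 ∨ p 1 ≠ 0) → p 0 * z0 = e * p 1 * z1 →
      t * p 5 = 2 * e * (p 2 * z0 - e * p 3 * z1) → q 5 = 0 → ∀ c : K, c ≠ 0 → q 2 = c * z0 →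
      q 3 = c * z1 → q 4 = c * t →
      2 * p 0 * q 0 - 2 * e * p 1 * q 1 - 2 * e * p 2 * q 2 + 2 * e ^ 2 * p 3 * q 3
        + p 4 * q 5 + p 5 * q 4 = 0 → False := by
    intro p q hQq h01 h1 h3 h5 c hc c2 c3 c4 hB
    rw [c2, c3, c4, h5] at hB
    obtain ⟨l, hl0, hl1⟩ := CSC.param hN h1
    have hl : l ≠ 0 := by
      rintro rfl
      rcases h01 with h | h
      · exact h (by rw [hl0, zero_mul])
      · exact h (by rw [hl1, zero_mul])
    have h6 : (2 * e) * l * (z1 * q 0 - z0 * q 1) = 0 := by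
      have h7 : 2 * (p 0 * q 0 - e * p 1 * q 1) = 0 := by linear_combination hB - c * h3
      rw [hl0, hl1] at h7
      linear_combination h7
    have h8 : z1 * q 0 = z0 * q 1 := by
      rcases mul_eq_zero.1 h6 with h | h
      · exact absurd h (mul_ne_zero h2e hl)
      · linear_combination h
    obtain ⟨k, hk0, hk1⟩ : ∃ k : K, q 0 = k * z0 ∧ q 1 = k * z1 := by
      refine ⟨(q 0 * z0 - e * q 1 * z1) / (z0 ^ 2 - e * z1 ^ 2), ?_, ?_⟩
      · rw [div_mul_eq_mul_div, eq_div_iff hN]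
        linear_combination -(e * z1) * h8
      · rw [div_mul_eq_mul_div, eq_div_iff hN]
        linear_combination -z0 * h8
    rw [hk0, hk1, c2, c3, h5] at hQq
    have h9 : (z0 ^ 2 - e * z1 ^ 2) * (k ^ 2 - e * c ^ 2) = 0 := by linear_combination hQq
    have h10 : k ^ 2 = e * c ^ 2 := by
      rcases mul_eq_zero.1 h9 with h | h
      · exact absurd h hN
      · linear_combination h
    exact hc (CSC.nz he h10).2
  rcases hXp with ⟨p01, p1, p3⟩ | ⟨p5, c, hc, c2, c3, c4⟩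
  · rcases hXq with ⟨q01, q1, q3⟩ | ⟨q5, c', hc', c2', c3', c4'⟩
    · have hp5 := hne5 p hQp p01 p1 p3
      have hq5 := hne5 q hQq q01 q1 q3
      have e1 : (q 5 * p 0 - p 5 * q 0) * z0 = e * (q 5 * p 1 - p 5 * q 1) * z1 := by
        linear_combination q 5 * p1 - p 5 * q1
      have e2 : (q 5 * p 2 - p 5 * q 2) * z0 = e * (q 5 * p 3 - p 5 * q 3) * z1 := by
        have h6 : 2 * e * ((q 5 * p 2 - p 5 * q 2) * z0 - e * (q 5 * p 3 - p 5 * q 3) * z1) = 0 := by
          linear_combination -q 5 * p3 + p 5 * q3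
        rcases mul_eq_zero.1 h6 with h | h
        · exact absurd h h2e
        · linear_combination h
      obtain ⟨a0, a1, a2, a3⟩ := CSC.lemA he hz e1 e2 (by
        linear_combination q 5 ^ 2 * hQp + p 5 ^ 2 * hQq - p 5 * q 5 * hB)
      have a4 : q 5 * p 4 - p 5 * q 4 = 0 := by
        have h6 : (p 5 * q 5) * (q 5 * p 4 - p 5 * q 4) = 0 := by
          have b0 : q 5 * p 0 = p 5 * q 0 := by linear_combination a0
          have b1 : q 5 * p 1 = p 5 * q 1 := by linear_combination a1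
          have b2 : q 5 * p 2 = p 5 * q 2 := by linear_combination a2
          have b3 : q 5 * p 3 = p 5 * q 3 := by linear_combination a3
          linear_combination q 5 ^ 2 * hQp - p 5 ^ 2 * hQq - (q 5 * p 0 + p 5 * q 0) * b0 +
            e * (q 5 * p 1 + p 5 * q 1) * b1 + e * (q 5 * p 2 + p 5 * q 2) * b2 -
            e ^ 2 * (q 5 * p 3 + p 5 * q 3) * b3
        rcases mul_eq_zero.1 h6 with h | h
        · exact absurd h (mul_ne_zero hp5 hq5)
        · exact h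
      refine ⟨q 5 / p 5, ?_⟩
      funext i
      rw [Pi.smul_apply, smul_eq_mul, div_mul_eq_mul_div, eq_div_iff hp5]
      fin_cases i
      · show q 0 * p 5 = q 5 * p 0
        linear_combination -a0
      · show q 1 * p 5 = q 5 * p 1
        linear_combination -a1
      · show q 2 * p 5 = q 5 * p 2
        linear_combination -a2
      · show q 3 * p 5 = q 5 * p 3
        linear_combination -a3
      · show q 4 * p 5 = q 5 * p 4
        linear_combination -a4
      · show q 5 * p 5 = q 5 * p 5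
        rfl
    · exact (mixed p q hQq p01 p1 p3 q5 c' hc' c2' c3' c4' hB).elim
  · rcases hXq with ⟨q01, q1, q3⟩ | ⟨q5, c', hc', c2', c3', c4'⟩
    · exact (mixed q p hQp q01 q1 q3 p5 c hc c2 c3 c4 (by linear_combination hB)).elim
    · have hd : (c' * p 0 - c * q 0) ^ 2 = e * (c' * p 1 - c * q 1) ^ 2 := by
        rw [c2, c3, c4, p5] at hQp hB
        rw [c2', c3', c4', q5] at hQq hB
        linear_combination c' ^ 2 * hQp + c ^ 2 * hQq - c * c' * hB
      obtain ⟨a0, a1⟩ := CSC.nz he hd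
      refine ⟨c' / c, ?_⟩
      funext i
      rw [Pi.smul_apply, smul_eq_mul, div_mul_eq_mul_div, eq_div_iff hc]
      fin_cases i
      · show q 0 * c = c' * p 0
        linear_combination -a0
      · show q 1 * c = c' * p 1
        linear_combination -a1
      · show q 2 * c = c' * p 2
        rw [c2, c2']
        ring
      · show q 3 * c = c' * p 3
        rw [c3, c3']
        ring
      · show q 4 * c = c' * p 4
        rw [c4, c4']
        ring
      · show q 5 * c = c' * p 5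
        rw [p5, q5]
        ring

end H74PK
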