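import Pool.Agent.K6.H74.PK.Stm

set_option autoImplicit false

namespace H74PK

theorem t_CY1 : S_CY1 := by
  intro K _ e m n y h2 he hmn hm hn
  have he0 : e ≠ 0 := fun h => he 0 (by rw [h]; ring)
  have h4 : (4 : K) ≠ 0 := by
    have : (4 : K) = 2 * 2 := by norm_num
    rw [this]
    exact mul_ne_zero h2 h2
  have h4e : 4 * e * m * n ≠ 0 := mul_ne_zero (mul_ne_zero (mul_ne_zero h4 he0) hm) hn
  refine ⟨⟨?_, ?_, ?_, ?_, ?_⟩, ⟨?_, ?_, ?_, ?_, ?_⟩, ⟨?_, ?_, ?_, ?_, ?_⟩, fun c => ⟨?_, ?_, ?_, ?_, ?_⟩⟩
  · simp only [QF, c1, Matrix.cons_val]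
    linear_combination hmn
  · simp only [QF, c2, Matrix.cons_val]
    linear_combination (-e) * hmn
  · simp only [QF, c3, Matrix.cons_val]
    linear_combination (-e) * hmn
  · simp only [QF, c4, Matrix.cons_val]
    ring
  · simp only [QF, c5, Matrix.cons_val]
    linear_combination (-e) * hmn
  · simp only [BF, c1, c2, Matrix.cons_val]
    ring
  · simp only [BF, c2, c3, Matrix.cons_val]
    linear_combination (-2 * e) * hmn
  · simp only [BF, c3, c4, Matrix.cons_val]
    ring
  · simp only [BF, c4, c5, Matrix.cons_val]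
    ring
  · simp only [BF, c5, c1, Matrix.cons_val]
    ring
  · intro h
    have := congrFun h 5
    simp [c1] at this
  · intro h
    have := congrFun h 1
    simp [c2] at this
  · intro h
    have := congrFun h 1
    simp [c3] at this
  · intro h
    have := congrFun h 5
    simp [c4] at this
  · intro h
    have := congrFun h 1
    simp [c5] at this
  · intro h
    have := congrFun h 5
    simp [c1, c2] at this
  · intro h
    have a4 := congrFun h 4
    have a1 := congrFun h 1
    simp only [c2, c3, Pi.smul_apply, smul_eq_mul, Matrix.cons_val] at a4 a1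
    rw [mul_one] at a1
    rw [← a1, one_mul] at a4
    exact h4e a4.symm
  · intro h
    have a0 := congrFun h 0
    simp only [c3, c4, Pi.smul_apply, smul_eq_mul, Matrix.cons_val, mul_zero] at a0
    exact mul_ne_zero he0 hn a0
  · intro h
    have := congrFun h 5
    simp [c4, c5] at this
  · intro h
    have a5 := congrFun h 5
    have a1 := congrFun h 1
    simp only [c5, c1, Pi.smul_apply, smul_eq_mul, Matrix.cons_val, mul_zero] at a5 a1
    exact one_ne_zero a1

end H74PK
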