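import Pool.Agent.K6.H74.PK.Stm

set_option autoImplicit false

namespace H74PK

theorem t_CY2 : S_CY2 := by
  intro K _ e m n y h2 he hmn hm hn hy
  have he0 : e ≠ 0 := fun h => he 0 (by rw [h]; ring)
  have h4 : (4 : K) ≠ 0 := by
    have : (4 : K) = 2 * 2 := by norm_num
    rw [this]
    exact mul_ne_zero h2 h2
  have h4en : 4 * e * n ≠ 0 := mul_ne_zero (mul_ne_zero h4 he0) hn
  have h4e : 4 * e * m * n ≠ 0 := mul_ne_zero (mul_ne_zero (mul_ne_zero h4 he0) hm) hn
  have h2em : 2 * e * m ≠ 0 := mul_ne_zero (mul_ne_zero h2 he0) hm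
  have hen : e * n ≠ 0 := mul_ne_zero he0 hn
  have h2mn : 2 * m * n ≠ 0 := mul_ne_zero (mul_ne_zero h2 hm) hn
  refine ⟨⟨?_, ?_, ?_, ?_⟩, ⟨?_, ?_, ?_, ?_⟩, ⟨?_, ?_, ?_, ?_⟩, ⟨?_, ?_, ?_, ?_⟩, ⟨?_, ?_, ?_, ?_⟩⟩
  -- c1
  · rintro ⟨h0, -⟩
    simp only [c1, Matrix.cons_val] at h0
    exact hm h0
  · rintro (⟨h0, -⟩ | ⟨-, -, -, h5⟩ | ⟨h5, -⟩)
    · simp only [c1, Matrix.cons_val] at h0
      exact hm h0
    · simp only [c1, Matrix.cons_val] at h5
      exact h5 rfl
    · simp only [c1, Matrix.cons_val] at h5
      exact one_ne_zero h5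
  · rintro r t - - (⟨-, h1, -⟩ | ⟨h5, -⟩)
    · simp only [c1, Matrix.cons_val] at h1
      apply hm
      linear_combination h1
    · simp only [c1, Matrix.cons_val] at h5
      exact one_ne_zero h5
  · rintro t ht (⟨-, -, h1⟩ | ⟨h5, -⟩)
    · simp only [c1, Matrix.cons_val] at h1
      apply ht
      linear_combination h1
    · simp only [c1, Matrix.cons_val] at h5
      exact one_ne_zero h5
  -- c2
  · rintro ⟨h0, -⟩
    simp only [c2, Matrix.cons_val] at h0
    exact hen h0
  · rintro (⟨h0, -⟩ | ⟨h1, -⟩ | ⟨-, -, h1, -⟩)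
    · simp only [c2, Matrix.cons_val] at h0
      exact hen h0
    · simp only [c2, Matrix.cons_val] at h1
      exact one_ne_zero h1
    · simp only [c2, Matrix.cons_val] at h1
      exact hm h1
  · rintro r t - hrt (⟨-, -, h1⟩ | ⟨-, c, hc, h3, h4, h6⟩)
    · simp only [c2, Matrix.cons_val] at h1
      apply h2em
      linear_combination -h1
    · simp only [c2, Matrix.cons_val] at h3 h4 h6
      have hr : r = 0 := by
        rcases mul_eq_zero.1 h4.symm with h | h
        · exact absurd h hc
        · exact h
      have ht : t = 0 := by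
        rcases mul_eq_zero.1 h6.symm with h | h
        · exact absurd h hc
        · exact h
      exact hrt ⟨hr, ht⟩
  · rintro t ht (⟨-, h1, -⟩ | ⟨-, c, hc, h3, -⟩)
    · simp only [c2, Matrix.cons_val] at h1
      apply he0
      linear_combination -h1
    · simp only [c2, Matrix.cons_val] at h3
      apply hm
      linear_combination h3
  -- c3
  · rintro ⟨h0, -⟩
    simp only [c3, Matrix.cons_val] at h0
    exact hen h0
  · rintro (⟨h0, -⟩ | ⟨h1, -⟩ | ⟨-, -, h1, -⟩)
    · simp only [c3, Matrix.cons_val] at h0
      exact hen h0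
    · simp only [c3, Matrix.cons_val] at h1
      exact one_ne_zero h1
    · simp only [c3, Matrix.cons_val] at h1
      exact hm h1
  · rintro r t hrt - (⟨-, -, h1⟩ | ⟨-, c, hc, h3, h4, h6⟩)
    · simp only [c3, Matrix.cons_val] at h1
      apply h2em
      linear_combination -h1
    · simp only [c3, Matrix.cons_val] at h3 h4 h6
      have hr : r = 0 := by
        rcases mul_eq_zero.1 h4.symm with h | h
        · exact absurd h hc
        · exact h
      have hcm : c = m := by linear_combination -h3
      have ht : t = 4 * e * n := by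
        rw [hcm] at h6
        have h7 : m * t = m * (4 * e * n) := by linear_combination -h6
        exact mul_left_cancel₀ hm h7
      exact hrt ⟨hr, ht⟩
  · rintro t ht (⟨-, h1, -⟩ | ⟨-, c, hc, h3, -⟩)
    · simp only [c3, Matrix.cons_val] at h1
      apply he0
      linear_combination -h1
    · simp only [c3, Matrix.cons_val] at h3
      apply hm
      linear_combination h3
  -- c4
  · rintro ⟨-, h1⟩
    simp only [c4, Matrix.cons_val] at h1
    apply h4en
    linear_combination h1
  · rintro (⟨-, -, h5⟩ | ⟨h1, -⟩ | ⟨h5, -⟩)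
    · simp only [c4, Matrix.cons_val] at h5
      apply hy
      linear_combination h5
    · simp only [c4, Matrix.cons_val] at h1
      exact h2mn h1
    · simp only [c4, Matrix.cons_val] at h5
      exact one_ne_zero h5
  · rintro r t - hrt (⟨-, h1, h3⟩ | ⟨h5, -⟩)
    · simp only [c4, Matrix.cons_val] at h1 h3
      have hr : r = 0 := by
        have h7 : e * (2 * m * n) * r = 0 := by linear_combination -h1
        rcases mul_eq_zero.1 h7 with h | h
        · exact absurd h (mul_ne_zero he0 h2mn)
        · exact h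
      have ht : t = 0 := by
        rw [hr] at h3
        linear_combination h3
      exact hrt ⟨hr, ht⟩
    · simp only [c4, Matrix.cons_val] at h5
      exact one_ne_zero h5
  · rintro t ht (⟨-, h1, -⟩ | ⟨h5, -⟩)
    · simp only [c4, Matrix.cons_val] at h1
      apply mul_ne_zero he0 h2mn
      linear_combination -h1
    · simp only [c4, Matrix.cons_val] at h5
      exact one_ne_zero h5
  -- c5
  · rintro ⟨h0, -⟩
    simp only [c5, Matrix.cons_val] at h0
    exact hen (by linear_combination -h0)
  · rintro (⟨h0, -⟩ | ⟨h1, -⟩ | ⟨-, -, h1, -⟩)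
    · simp only [c5, Matrix.cons_val] at h0
      exact hen (by linear_combination -h0)
    · simp only [c5, Matrix.cons_val] at h1
      exact one_ne_zero h1
    · simp only [c5, Matrix.cons_val] at h1
      exact hm h1
  · rintro r t hrt - (⟨-, -, h1⟩ | ⟨-, c, hc, h3, h4, h6⟩)
    · simp only [c5, Matrix.cons_val] at h1
      apply h2em
      linear_combination -h1
    · simp only [c5, Matrix.cons_val] at h3 h4 h6
      have hr : r = 0 := by
        rcases mul_eq_zero.1 h4.symm with h | h
        · exact absurd h hc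
        · exact h
      have hcm : c = m := by linear_combination -h3
      have ht : t = 4 * e * n := by
        rw [hcm] at h6
        have h7 : m * t = m * (4 * e * n) := by linear_combination -h6
        exact mul_left_cancel₀ hm h7
      exact hrt ⟨hr, ht⟩
  · rintro t ht (⟨-, h1, -⟩ | ⟨-, c, hc, h3, -⟩)
    · simp only [c5, Matrix.cons_val] at h1
      apply he0
      linear_combination -h1
    · simp only [c5, Matrix.cons_val] at h3
      apply hm
      linear_combination h3

end H74PK
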