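import Pool.Agent.K6.H74.PK.Stm

/-!
# Piece DEF1: there is no complete partial packing of deficiency one
-/

set_option autoImplicit false

namespace H74PK

theorem t_DEF1 (hL : S_LC) (hA : S_EQA) (hB : S_EQB) : S_DEF1 := by
  rintro K _ _ F ⟨hS, hD, hc, hC⟩
  haveI : Finite (Submodule K (Fin 4 → K)) :=
    Finite.of_injective (fun W : Submodule K (Fin 4 → K) => (W : Set (Fin 4 → K)))
      SetLike.coe_injective
  let R : Set (Submodule K (Fin 4 → K)) := {W | Module.finrank K W = 2 ∧ ∀ S ∈ F, W ∉ S}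
  have key : ∀ v : Fin 4 → K, v ≠ 0 → ∃ W0, {W | W ∈ R ∧ v ∈ W} = {W0} := by
    intro v hv
    have hLv := hL K v hv
    have hex : ∀ S ∈ F, ∃ W, W ∈ S ∧ v ∈ W := fun S hSF => by
      obtain ⟨W, h1, h2⟩ := hA K S (hS S hSF) v hv
      exact ⟨W, h1, h2⟩
    choose! φ hφ using hex
    have hinj : Set.InjOn φ F := by
      intro S hSF S' hSF' h
      by_contra hne
      have h1 := (hφ S hSF).1
      rw [h] at h1
      exact Set.disjoint_left.1 (hD S hSF S' hSF' hne) h1 (hφ S' hSF').1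
    have hsub : φ '' F ⊆ {W : Submodule K (Fin 4 → K) | Module.finrank K W = 2 ∧ v ∈ W} := by
      rintro W ⟨S, hSF, rfl⟩
      exact ⟨(hS S hSF).1 _ (hφ S hSF).1, (hφ S hSF).2⟩
    have h1 : ({W : Submodule K (Fin 4 → K) | Module.finrank K W = 2 ∧ v ∈ W} \ φ '' F).ncard
        = 1 := by
      rw [Set.ncard_diff hsub (Set.toFinite _), Set.ncard_image_of_injOn hinj, hLv]
      omega
    obtain ⟨W0, hW0⟩ := Set.ncard_eq_one.1 h1
    refine ⟨W0, ?_⟩
    rw [← hW0]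
    ext W
    constructor
    · rintro ⟨⟨h2, hn⟩, hvW⟩
      refine ⟨⟨h2, hvW⟩, ?_⟩
      rintro ⟨S, hSF, rfl⟩
      exact hn S hSF (hφ S hSF).1
    · rintro ⟨⟨h2, hvW⟩, hn⟩
      refine ⟨⟨h2, fun S hSF hWS => hn ⟨S, hSF, ?_⟩⟩, hvW⟩
      by_contra hne
      have h3 := (hS S hSF).2.1 _ (hφ S hSF).1 _ hWS hne
      exact hv (Submodule.disjoint_def.1 h3 v (hφ S hSF).2 hvW)
  have hR : IsSpread K R := by
    refine hB K R (fun W hW => hW.1) ?_ ?_
    · intro v hv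
      obtain ⟨W0, h0⟩ := key v hv
      have h1 : W0 ∈ {W | W ∈ R ∧ v ∈ W} := by rw [h0]; rfl
      exact ⟨W0, h1.1, h1.2⟩
    · intro W hW W' hW' hne
      rw [Submodule.disjoint_def]
      intro x hx hx'
      by_contra hx0
      obtain ⟨W0, h0⟩ := key x hx0
      have h1 : W ∈ {W | W ∈ R ∧ x ∈ W} := ⟨hW, hx⟩
      have h2 : W' ∈ {W | W ∈ R ∧ x ∈ W} := ⟨hW', hx'⟩
      rw [h0] at h1 h2
      exact hne (h1.trans h2.symm)
  obtain ⟨S', hS', hnd⟩ := hC R hR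
  exact hnd (Set.disjoint_left.2 fun W hW hWS => hW.2 S' hS' hWS)

end H74PK
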