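import Pool.Agent.K6.H74.PK.Stm

/-!
# Piece DIS
-/

set_option autoImplicit false

namespace H74PK

namespace DIS

theorem ne_zero {K : Type} [Field K] {e : K} (he : ∀ x : K, x ^ 2 ≠ e) : e ≠ 0 := by
  intro h
  exact he 0 (by rw [h]; ring)

theorem zero_of_sq {K : Type} [Field K] {e : K} (he : ∀ x : K, x ^ 2 ≠ e) {x y : K}
    (h : x ^ 2 = e * y ^ 2) : x = 0 ∧ y = 0 := by
  have hy : y = 0 := by
    by_contra hy
    apply he (x / y)
    rw [div_pow, h]
    field_simp
  refine ⟨?_, hy⟩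
  rw [hy] at h
  have : x ^ 2 = 0 := by rw [h]; ring
  exact pow_eq_zero_iff (two_ne_zero) |>.1 this

end DIS

theorem t_DIS : S_DIS := by
  intro K _ e τ _ he hτ p hp hq hs ht
  have he0 := DIS.ne_zero he
  obtain ⟨h0, h1⟩ := hs
  rcases ht with ⟨_, h2, h5⟩ | ⟨_, _, h, _⟩ | ⟨_, _, _, h⟩
  · have h5' : p 5 = 0 := by
      have : τ * p 5 = 0 := by rw [h1, h2]; ring
      exact (mul_eq_zero.1 this).resolve_left hτ
    have h4 : p 4 = 0 := by
      have : -p 4 = 0 := by rw [← h5, h5']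
      exact neg_eq_zero.1 this
    unfold QF at hq
    rw [h0, h2, h4, h5'] at hq
    have hk : p 1 ^ 2 = e * p 3 ^ 2 := by
      have : e * (p 1 ^ 2 - e * p 3 ^ 2) = 0 := by linear_combination -hq
      have := (mul_eq_zero.1 this).resolve_left he0
      linear_combination this
    obtain ⟨h1', h3⟩ := DIS.zero_of_sq he hk
    apply hp
    ext i
    fin_cases i <;> simp [h0, h1', h2, h3, h4, h5']
  · exact h h0
  · exact h h0

end H74PK
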