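import Pool.Agent.K6.H74.PK.Stm

/-! # Piece EQA (by helper90): a spread covers every nonzero vector -/

namespace H74PK

namespace EQA

variable {K : Type} [Field K] [Finite K]

/-- the number of nonzero vectors of a line -/
lemma card_line (W : Submodule K (Fin 4 → K)) (hW : Module.finrank K W = 2) :
    ((W : Set (Fin 4 → K)) \ {0}).ncard = Nat.card K ^ 2 - 1 := by
  have h1 : Nat.card W = Nat.card K ^ 2 := by
    rw [Module.natCard_eq_pow_finrank (K := K) (V := W), hW]
  have h2 : (W : Set (Fin 4 → K)).ncard = Nat.card K ^ 2 := by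
    rw [← h1]; rfl
  rw [Set.ncard_diff_singleton_of_mem (by simp), h2]

lemma card_all : (Set.univ \ {(0 : Fin 4 → K)}).ncard = Nat.card K ^ 4 - 1 := by
  have h1 : (Set.univ : Set (Fin 4 → K)).ncard = Nat.card K ^ 4 := by
    rw [Set.ncard_univ, Module.natCard_eq_pow_finrank (K := K) (V := Fin 4 → K)]
    simp
  rw [Set.ncard_diff_singleton_of_mem (Set.mem_univ _), h1]

end EQA

theorem t_EQA : S_EQA := by
  intro K _ _ S hS v hv
  classical
  obtain ⟨h2, hd, hc⟩ := hS
  by_contra hcon
  push Not at hcon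
  have hfinS : S.Finite := Set.toFinite S
  have hq : 1 < Nat.card K := Finite.one_lt_card
  set q := Nat.card K with hqdef
  -- the union of the W \ {0}
  let U : Set (Fin 4 → K) := ⋃ W ∈ S, ((W : Set (Fin 4 → K)) \ {0})
  haveI : Fintype (Fin 4 → K) := Fintype.ofFinite _
  have hUc : U.ncard = S.ncard * (q ^ 2 - 1) := by
    have hU : U = ((hfinS.toFinset.biUnion fun W : Submodule K (Fin 4 → K) =>
        (Set.toFinite ((W : Set (Fin 4 → K)) \ {0})).toFinset : Finset (Fin 4 → K)) :
          Set (Fin 4 → K)) := by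
      ext x
      simp only [U, Set.mem_iUnion, Finset.mem_coe, Finset.mem_biUnion, Set.Finite.mem_toFinset,
        exists_prop]
    rw [hU, Set.ncard_coe_finset, Finset.card_biUnion]
    · rw [Finset.sum_congr rfl (g := fun _ => q ^ 2 - 1), Finset.sum_const, smul_eq_mul,
        ← Set.ncard_eq_toFinset_card S hfinS]
      intro W hW
      rw [← Set.ncard_eq_toFinset_card]
      exact EQA.card_line W (h2 W ((Set.Finite.mem_toFinset hfinS).1 hW))
    · intro W hW W' hW' hne
      have hdis := hd W ((Set.Finite.mem_toFinset hfinS).1 hW) W'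
        ((Set.Finite.mem_toFinset hfinS).1 hW') hne
      change Disjoint _ _
      rw [Finset.disjoint_left]
      intro x hx hx'
      simp only [Set.Finite.mem_toFinset, Set.mem_sdiff, SetLike.mem_coe,
        Set.mem_singleton_iff] at hx hx'
      exact hx.2 (by simpa using (Submodule.disjoint_def.1 hdis x hx.1 hx'.1))
  have hvU : v ∉ U := by
    intro h
    simp only [U, Set.mem_iUnion, Set.mem_sdiff, SetLike.mem_coe, exists_prop] at h
    obtain ⟨W, hW, hvW, -⟩ := h
    exact hcon W hW hvW
  have hsub : insert v U ⊆ Set.univ \ {(0 : Fin 4 → K)} := by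
    intro x hx
    rcases hx with rfl | hx
    · simpa using hv
    · simp only [U, Set.mem_iUnion, Set.mem_sdiff, exists_prop] at hx
      obtain ⟨W, hW, -, hx0⟩ := hx
      exact ⟨trivial, hx0⟩
  have hle := Set.ncard_le_ncard hsub (Set.toFinite _)
  rw [Set.ncard_insert_of_notMem hvU (Set.toFinite _), hUc, EQA.card_all, hc, ← hqdef] at hle
  have hp : 0 < q ^ 2 := by positivity
  obtain ⟨k, hk⟩ : ∃ k, q ^ 2 = k + 1 := ⟨q ^ 2 - 1, by omega⟩
  have h4 : q ^ 4 = (k + 1) * (k + 1) := by rw [← hk]; ring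
  rw [h4, hk] at hle
  have h5 : (k + 1 + 1) * (k + 1 - 1) = k * k + 2 * k := by
    rw [Nat.add_sub_cancel]; ring
  have h6 : (k + 1) * (k + 1) = k * k + 2 * k + 1 := by ring
  omega

end H74PK
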