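import Pool.Agent.K6.H74.PK.Stm

/-! Piece EQB (helper75). -/

set_option autoImplicit false

namespace H74PK

namespace EQB

lemma card_ne_zero (M : Type) [AddCommGroup M] [Finite M] :
    Nat.card {v : M // v ≠ 0} + 1 = Nat.card M := by
  classical
  rw [← Finite.card_option, Nat.card_congr (Equiv.optionSubtypeNe (0 : M))]

end EQB

open EQB in
theorem t_EQB : S_EQB := by
  classical
  intro K _ _ S h1 h2 h3
  refine ⟨h1, h3, ?_⟩
  have hfin : Finite (Submodule K (Fin 4 → K)) :=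
    Finite.of_injective (fun W : Submodule K (Fin 4 → K) => (W : Set (Fin 4 → K)))
      SetLike.coe_injective
  have hFS : Finite S := inferInstance
  have := Fintype.ofFinite S
  have hV : Nat.card {v : Fin 4 → K // v ≠ 0} + 1 = Nat.card K ^ 4 := by
    rw [card_ne_zero, Module.natCard_eq_pow_finrank (K := K), Module.finrank_fin_fun]
  have hW : ∀ W : S, Nat.card {v : W.1 // v ≠ 0} + 1 = Nat.card K ^ 2 := by
    intro W
    rw [card_ne_zero, Module.natCard_eq_pow_finrank (K := K), h1 W.1 W.2]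
  let f : (Σ W : S, {v : W.1 // v ≠ 0}) → {v : Fin 4 → K // v ≠ 0} := fun x =>
    ⟨x.2.1.1, fun h => x.2.2 (Subtype.ext h)⟩
  have hf : Function.Bijective f := by
    constructor
    · rintro ⟨⟨W, hWS⟩, ⟨⟨v, hv⟩, hv0⟩⟩ ⟨⟨W', hWS'⟩, ⟨⟨v', hv'⟩, hv0'⟩⟩ h
      have hvv : v = v' := Subtype.ext_iff.1 h
      subst hvv
      have hWW : W = W' := by
        by_contra hne
        have := (Submodule.disjoint_def.1 (h3 W hWS W' hWS' hne)) v hv hv'
        exact hv0 (Subtype.ext this)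
      subst hWW
      rfl
    · rintro ⟨v, hv⟩
      obtain ⟨W, hWS, hvW⟩ := h2 v hv
      exact ⟨⟨⟨W, hWS⟩, ⟨⟨v, hvW⟩, fun h => hv (Subtype.ext_iff.1 h)⟩⟩, rfl⟩
  have hcount := Nat.card_congr (Equiv.ofBijective f hf)
  rw [Nat.card_sigma] at hcount
  have hq : 1 < Nat.card K := Finite.one_lt_card
  obtain ⟨c, hc⟩ : ∃ c, Nat.card K ^ 2 = c + 1 := ⟨Nat.card K ^ 2 - 1, by
    have : 0 < Nat.card K ^ 2 := by positivity
    omega⟩
  have hc0 : 0 < c := by
    have : 1 < Nat.card K ^ 2 := Nat.one_lt_pow (by norm_num) hq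
    omega
  have hW' : ∀ W : S, Nat.card {v : W.1 // v ≠ 0} = c := fun W => by
    have := hW W
    omega
  rw [Finset.sum_congr rfl fun W _ => hW' W, Finset.sum_const, Finset.card_univ, smul_eq_mul]
    at hcount
  have h4 : Nat.card K ^ 4 = (c + 1) ^ 2 := by rw [← hc]; ring
  have h5 : Fintype.card S * c = (c + 2) * c := by
    rw [hcount]
    have : Nat.card {v : Fin 4 → K // v ≠ 0} + 1 = (c + 2) * c + 1 := by
      rw [hV, h4]; ring
    omega
  have h6 := Nat.eq_of_mul_eq_mul_right hc0 h5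
  rw [← Nat.card_coe_set_eq, Nat.card_eq_fintype_card, h6, hc]

end H74PK
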