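import Pool.Agent.K6.H74.PK.Stm

/-!
# EX
-/

set_option autoImplicit false

namespace H74PK

open Polynomial in
theorem t_EX : S_EX := by
  intro K _ _ hodd
  classical
  have : Fintype K := Fintype.ofFinite K
  rw [Nat.card_eq_fintype_card] at hodd
  have hc1 : Fintype.card K % 2 = 1 := Nat.odd_iff.1 hodd
  have hchar : ringChar K ≠ 2 := by
    intro h
    have := FiniteField.even_card_iff_char_two.1 h
    omega
  have h2 : (2 : K) ≠ 0 := Ring.two_ne_zero hchar
  obtain ⟨e, he⟩ := FiniteField.exists_nonsquare hchar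
  have hns : ∀ x : K, x ^ 2 ≠ e := fun x hx => he ⟨x, by rw [← hx, sq]⟩
  have he0 : e ≠ 0 := fun h => hns 0 (by rw [h]; simp)
  have he1 : e ≠ 1 := fun h => hns 1 (by rw [h]; simp)
  obtain ⟨a, b, hab⟩ := FiniteField.exists_root_sum_quadratic (R := K) (f := X ^ 2)
    (g := X ^ 2 - C e) (degree_X_pow 2) (degree_X_pow_sub_C two_pos e) hc1
  have hab' : a ^ 2 + b ^ 2 = e := by
    simp only [eval_pow, eval_X, eval_sub, eval_C] at hab
    linear_combination hab
  obtain ⟨m, n, hmn⟩ := FiniteField.exists_root_sum_quadratic (R := K) (f := X ^ 2)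
    (g := C (-e) * X ^ 2 + C 1) (degree_X_pow 2)
    (by
      rw [degree_add_C]
      · exact degree_C_mul_X_pow 2 (neg_ne_zero.2 he0)
      · rw [degree_C_mul_X_pow 2 (neg_ne_zero.2 he0)]
        norm_num) hc1
  have hmn' : m ^ 2 - e * n ^ 2 = -1 := by
    simp only [eval_pow, eval_X, eval_add, eval_mul, eval_C] at hmn
    linear_combination hmn
  have hm : ∀ m n : K, m ^ 2 - e * n ^ 2 = -1 → m ≠ 0 := by
    rintro m n h rfl
    have hn : n ≠ 0 := by
      rintro rfl
      simp at h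
    apply hns (1 / n)
    field_simp
    linear_combination h
  refine ⟨h2, a, b, ?_⟩
  rw [hab']
  by_cases hn : n = 0
  · subst hn
    have hm0 : m ^ 2 = -1 := by linear_combination hmn'
    have h1e : 1 - e ≠ 0 := sub_ne_zero.2 (Ne.symm he1)
    have h3 : (m * (1 + e) / (1 - e)) ^ 2 - e * (2 * m / (1 - e)) ^ 2 = -1 := by
      field_simp
      linear_combination (1 - e) ^ 2 * hm0
    exact ⟨_, _, hns, h3, hm _ _ h3, div_ne_zero (mul_ne_zero h2 (hm m 0 hmn')) h1e⟩
  · exact ⟨m, n, hns, hmn', hm m n hmn', hn⟩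

end H74PK
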