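import Pool.Agent.K6.H74.PK.PLQ

namespace H74PK

open Module

theorem aux_TR (hRK : S_RK) (hTR : S_TR) (hLNS : S_LNS)
    (K : Type) [Field K] [Finite K] (a b : K) (h2 : (2 : K) ≠ 0) (he : a ^ 2 + b ^ 2 ≠ 0)
    (G : Idx K → (Fin 6 → K) → Prop) (hc : ∀ i, Cone (G i))
    (hcap : ∀ i, Cap (a ^ 2 + b ^ 2) (G i))
    (hcov : ∀ p : Fin 6 → K, p ≠ 0 → QF (a ^ 2 + b ^ 2) p = 0 → ∃ i, G i p) :
    (∀ i, IsSpread K (Lns a b (G i))) ∧
      ∀ i j, i ≠ j → Disjoint (Lns a b (G i)) (Lns a b (G j)) := by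
  apply hTR K (fun i => Lns a b (G i))
  · intro i W hW
    exact hW.1
  · intro W hW
    have hne : W ≠ ⊥ := by
      rintro rfl
      simp at hW
    obtain ⟨v, hv, hv0⟩ := Submodule.exists_mem_ne_zero_of_ne_bot hne
    obtain ⟨w, hw⟩ := (hRK K a b h2 he).2 W v hW hv hv0
    have hp : plu a b v w ≠ 0 := by
      rw [← (hRK K a b h2 he).1 v w, ← hw]
      exact hW
    obtain ⟨i, hi⟩ := hcov _ hp (t_PLQ K a b v w v w).1
    exact ⟨i, hW, v, w, hw, hi⟩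
  · intro i
    exact (hLNS K a b h2 he (G i) (hc i)).1 (hcap i)

/-- the index of `Y_h` -/
def ih {K : Type} [Field K] (τ : K) : Idx K := Sum.inl (0, τ)
def ij (K : Type) [Field K] : Idx K := Sum.inl (0, 0)
def il (K : Type) [Field K] : Idx K := Sum.inr (Sum.inl 0)

theorem agree {K : Type} [Field K] (e τ : K) (i : Idx K) (h1 : i ≠ ih τ) (h2 : i ≠ ij K)
    (h3 : i ≠ il K) (h4 : i ≠ Sum.inr (Sum.inr ())) : G1 e τ i = G2 e i := by
  rcases i with ⟨r, t⟩ | t | t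
  · have h1' : ¬ (r = 0 ∧ t = τ) := by
      rintro ⟨rfl, rfl⟩; exact h1 rfl
    have h2' : ¬ (r = 0 ∧ t = 0) := by
      rintro ⟨rfl, rfl⟩; exact h2 rfl
    funext p
    simp [G1, G2, h1', h2']
  · have h3' : t ≠ 0 := by
      rintro rfl; exact h3 rfl
    funext p
    simp [G1, G2, h3']
  · exact absurd rfl h4

theorem span_ne {K : Type} [Field K] (a b : K) (v w v' w' : Fin 4 → K)
    (h : ∀ c : K, plu a b v w ≠ c • plu a b v' w') :
    Submodule.span K {v, w} ≠ Submodule.span K {v', w'} := by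
  intro hs
  have hv : v ∈ Submodule.span K {v', w'} := by
    rw [← hs]; exact Submodule.subset_span (by simp)
  have hw : w ∈ Submodule.span K {v', w'} := by
    rw [← hs]; exact Submodule.subset_span (by simp)
  obtain ⟨α, β, hαβ⟩ := Submodule.mem_span_pair.1 hv
  obtain ⟨γ, δ, hγδ⟩ := Submodule.mem_span_pair.1 hw
  apply h (α * δ - β * γ)
  rw [← (t_PLQ K a b v' w' v w).2.2.2.1 α β γ δ, hαβ, hγδ]

open Classical in
/-- the final family -/
noncomputable def CF {K : Type} [Field K] (a b τ : K) (i : Idx K) :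
    Set (Submodule K (Fin 4 → K)) :=
  if i = il K then Lns a b (G2 (a ^ 2 + b ^ 2) (il K)) else Lns a b (G1 (a ^ 2 + b ^ 2) τ i)

theorem t_FIN (hEX : S_EX) (hSUR : S_SUR) (hMEET : S_MEET) (hRK : S_RK) (hTR : S_TR)
    (hKEY : S_KEY) (hCONE : S_CONE) (hGC : S_GC) (hLNS : S_LNS) (hCY1 : S_CY1) (hCY2 : S_CY2)
    (hDIS : S_DIS) : S_FIN := by
  classical
  intro K _ _ hodd
  obtain ⟨h2, a, b, m, n, hns, hmn, hm, hn⟩ := hEX K hodd
  have he : a ^ 2 + b ^ 2 ≠ 0 := fun h => hns 0 (by rw [h]; simp)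
  have h4 : (4 : K) ≠ 0 := by
    have : (4 : K) = 2 * 2 := by norm_num
    rw [this]; exact mul_ne_zero h2 h2
  obtain ⟨τ, hτ⟩ : ∃ τ : K, τ = 4 * (a ^ 2 + b ^ 2) * n := ⟨_, rfl⟩
  have hτ0 : τ ≠ 0 := by
    rw [hτ]; exact mul_ne_zero (mul_ne_zero h4 he) hn
  obtain ⟨g1, g2, g3, g4⟩ := hGC K (a ^ 2 + b ^ 2) τ h2 hns
  obtain ⟨k1, k2, k3, k4, k5⟩ := hCONE K (a ^ 2 + b ^ 2) τ
  have A1 := aux_TR hRK hTR hLNS K a b h2 he (G1 (a ^ 2 + b ^ 2) τ) k1 g1 g3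
  have A2 := aux_TR hRK hTR hLNS K a b h2 he (G2 (a ^ 2 + b ^ 2)) k2 g2 g4
  -- all members are spreads
  have hsp : ∀ i, IsSpread K (CF a b τ i) := by
    intro i
    unfold CF
    split_ifs with h
    · exact A2.1 _
    · exact A1.1 i
  -- the mixed disjointness
  have hmix : ∀ i, i ≠ ih τ → i ≠ ij K → i ≠ il K →
      Disjoint (Lns a b (G2 (a ^ 2 + b ^ 2) (il K))) (Lns a b (G1 (a ^ 2 + b ^ 2) τ i)) := by
    intro i h1 h2' h3
    by_cases h4 : i = Sum.inr (Sum.inr ())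
    · subst h4
      rw [Set.disjoint_left]
      rintro W ⟨hW1, v, w, hvw, hX⟩ hW2
      have hp : plu a b v w ≠ 0 := by
        rw [← (hRK K a b h2 he).1 v w, ← hvw]
        exact hW1
      have hY : G1 (a ^ 2 + b ^ 2) τ (Sum.inr (Sum.inr ())) (plu a b v w) := by
        rw [hvw] at hW2
        exact ((hLNS K a b h2 he _ (k1 _)).2 v w hp).1 hW2
      have hT : TT (plu a b v w) := by
        rcases hX with h | h
        · exact h.2
        · exact absurd rfl h.1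
      exact hDIS K (a ^ 2 + b ^ 2) τ h2 hns hτ0 _ hp (t_PLQ K a b v w v w).1 hY hT
    · rw [agree (a ^ 2 + b ^ 2) τ i h1 h2' h3 h4]
      exact A2.2 _ _ (Ne.symm h3)
  have hdis : ∀ i i', i ≠ ih τ → i ≠ ij K → i' ≠ ih τ → i' ≠ ij K → i ≠ i' →
      Disjoint (CF a b τ i) (CF a b τ i') := by
    intro i i' h1 h2 h3 h4 h5
    unfold CF
    split_ifs with h6 h7 h7
    · exact absurd (h6.trans h7.symm) h5
    · exact hmix i' h3 h4 h7
    · exact (hmix i h1 h2 h6).symm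
    · exact A1.2 _ _ h5
  have hnz : ∀ i, (CF a b τ i).Nonempty := by
    intro i
    apply Set.nonempty_of_ncard_ne_zero
    rw [(hsp i).2.2]
    omega
  have hinj : Set.InjOn (CF a b τ) ({ih τ, ij K} : Set (Idx K))ᶜ := by
    intro i hi i' hi' hii
    by_contra hne
    simp only [Set.mem_compl_iff, Set.mem_insert_iff, Set.mem_singleton_iff, not_or] at hi hi'
    have := hdis i i' hi.1 hi.2 hi'.1 hi'.2 hne
    rw [hii, disjoint_self] at this
    exact (hnz i').ne_empty this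
  have hcard : Nat.card (Idx K) = Nat.card K ^ 2 + Nat.card K + 1 := by
    have hu : Nat.card Unit = 1 := by simp
    rw [Nat.card_sum, Nat.card_prod, Nat.card_sum, hu]
    ring
  have hneq : ih τ ≠ ij K := by
    intro h
    unfold ih ij at h
    simp only [Sum.inl.injEq, Prod.mk.injEq, true_and] at h
    exact hτ0 h
  have hFcard : (CF a b τ '' ({ih τ, ij K} : Set (Idx K))ᶜ).ncard + 2 =
      Nat.card K ^ 2 + Nat.card K + 1 := by
    rw [hinj.ncard_image, ← hcard, ← Set.ncard_add_ncard_compl {ih τ, ij K},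
      Set.ncard_pair hneq]
    ring
  have hFsp : ∀ S ∈ (CF a b τ '' ({ih τ, ij K} : Set (Idx K))ᶜ), IsSpread K S := by
    rintro _ ⟨i, -, rfl⟩
    exact hsp i
  have hFdis : ∀ S ∈ (CF a b τ '' ({ih τ, ij K} : Set (Idx K))ᶜ),
      ∀ S' ∈ (CF a b τ '' ({ih τ, ij K} : Set (Idx K))ᶜ), S ≠ S' → Disjoint S S' := by
    rintro _ ⟨i, hi, rfl⟩ _ ⟨i', hi', rfl⟩ hne
    simp only [Set.mem_compl_iff, Set.mem_insert_iff, Set.mem_singleton_iff, not_or] at hi hi'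
    exact hdis i i' hi.1 hi.2 hi'.1 hi'.2 (fun h => hne (by rw [h]))
  refine ⟨CF a b τ '' ({ih τ, ij K} : Set (Idx K))ᶜ, hFsp, hFdis, hFcard, ?_⟩
  intro S hS
  by_contra hcon
  push Not at hcon
  -- lines outside
  have hout : ∀ v w : Fin 4 → K, plu a b v w ≠ 0 → Left (a ^ 2 + b ^ 2) τ (plu a b v w) →
      ∀ S' ∈ (CF a b τ '' ({ih τ, ij K} : Set (Idx K))ᶜ), Submodule.span K {v, w} ∉ S' := by
    rintro v w hp hL _ ⟨i, hi, rfl⟩ hmem
    simp only [Set.mem_compl_iff, Set.mem_insert_iff, Set.mem_singleton_iff, not_or] at hi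
    unfold CF at hmem
    split_ifs at hmem with h
    · have h' := ((hLNS K a b h2 he _ (k2 _)).2 v w hp).1 hmem
      rcases h' with h' | h'
      · exact hL.2.1 h'.2
      · exact h'.1 rfl
    · have h' := ((hLNS K a b h2 he _ (k1 _)).2 v w hp).1 hmem
      rcases i with ⟨r, t⟩ | t | t
      · rcases h' with h' | h'
        · exact hi.1 (by unfold ih; rw [h'.1.1, h'.1.2])
        · refine hL.2.2.1 r t h'.1 ?_ h'.2
          rintro ⟨rfl, rfl⟩
          exact hi.2 rfl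
      · refine hL.2.2.2 t ?_ h'
        rintro rfl
        exact h rfl
      · exact hL.1 h'
  obtain ⟨y, hy⟩ : ∃ y : K, (a ^ 2 + b ^ 2) * (4 * m ^ 2 * n ^ 2 - (a ^ 2 + b ^ 2) * y ^ 2) ≠ -1 := by
    by_cases h : (a ^ 2 + b ^ 2) * (4 * m ^ 2 * n ^ 2) = -1
    · refine ⟨1, fun h' => ?_⟩
      have h'' : (a ^ 2 + b ^ 2) ^ 2 = 0 := by
        linear_combination h - h'
      exact he (by simpa using h'')
    · refine ⟨0, fun h' => h ?_⟩
      linear_combination h'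
  obtain ⟨⟨q1, q2, q3, q4, q5⟩, ⟨b1, b2, b3, b4, b5⟩, ⟨z1, z2, z3, z4, z5⟩, hpr⟩ :=
    hCY1 K (a ^ 2 + b ^ 2) m n y h2 hns hmn hm hn
  have hLf := hCY2 K (a ^ 2 + b ^ 2) m n y h2 hns hmn hm hn hy
  rw [← hτ] at hLf
  obtain ⟨l1, l2, l3, l4, l5⟩ := hLf
  obtain ⟨v1, w1, e1⟩ := hSUR K a b h2 he _ z1 q1
  obtain ⟨v2, w2, e2⟩ := hSUR K a b h2 he _ z2 q2
  obtain ⟨v3, w3, e3⟩ := hSUR K a b h2 he _ z3 q3
  obtain ⟨v4, w4, e4⟩ := hSUR K a b h2 he _ z4 q4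
  obtain ⟨v5, w5, e5⟩ := hSUR K a b h2 he _ z5 q5
  rw [← e1] at z1 l1
  rw [← e2] at z2 l2
  rw [← e3] at z3 l3
  rw [← e4] at z4 l4
  rw [← e5] at z5 l5
  rw [← e1, ← e2] at b1
  rw [← e2, ← e3] at b2
  rw [← e3, ← e4] at b3
  rw [← e4, ← e5] at b4
  rw [← e5, ← e1] at b5
  have step : ∀ v w v' w' : Fin 4 → K, plu a b v w ≠ 0 → plu a b v' w' ≠ 0 →
      BF (a ^ 2 + b ^ 2) (plu a b v w) (plu a b v' w') = 0 →
      (∀ c : K, plu a b v w ≠ c • plu a b v' w') →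
      Left (a ^ 2 + b ^ 2) τ (plu a b v w) → Left (a ^ 2 + b ^ 2) τ (plu a b v' w') →
      (Submodule.span K {v, w} ∈ S ↔ Submodule.span K {v', w'} ∉ S) := by
    intro v w v' w' hz hz' hB hc hl hl'
    refine hKEY K _ hFsp hFdis hFcard _ _ ?_ ?_ (span_ne a b v w v' w' hc)
      (hout v w hz hl) (hout v' w' hz' hl') (hMEET K a b h2 he v w v' w' hz hz' hB) S hS hcon
    · exact ((hRK K a b h2 he).1 v w).2 hz
    · exact ((hRK K a b h2 he).1 v' w').2 hz'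
  have s1 := step v1 w1 v2 w2 z1 z2 b1 (fun c => by rw [e1, e2]; exact (hpr c).1) l1 l2
  have s2 := step v2 w2 v3 w3 z2 z3 b2 (fun c => by rw [e2, e3]; exact (hpr c).2.1) l2 l3
  have s3 := step v3 w3 v4 w4 z3 z4 b3 (fun c => by rw [e3, e4]; exact (hpr c).2.2.1) l3 l4
  have s4 := step v4 w4 v5 w5 z4 z5 b4 (fun c => by rw [e4, e5]; exact (hpr c).2.2.2.1) l4 l5
  have s5 := step v5 w5 v1 w1 z5 z1 b5 (fun c => by rw [e5, e1]; exact (hpr c).2.2.2.2) l5 l1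
  tauto

end H74PK
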