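import Pool.Agent.K6.H74.PK.Stm

set_option autoImplicit false

namespace H74PK

namespace GC

theorem norm_zero {K : Type} [Field K] {e : K} (he : ∀ x : K, x ^ 2 ≠ e) {x y : K}
    (h : x ^ 2 = e * y ^ 2) : x = 0 ∧ y = 0 := by
  by_cases hy : y = 0
  · rw [hy] at h
    have : x ^ 2 = 0 := by rw [h]; ring
    exact ⟨pow_eq_zero_iff (two_ne_zero) |>.1 this, hy⟩
  · exfalso
    apply he (x / y)
    rw [div_pow, h]
    field_simp

end GC

theorem t_GC (h1 : S_CSC) (h2 : S_COV) (h3 : S_CSH) (h4 : S_CYH) (h5 : S_CTT) (h6 : S_CXX) :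
    S_GC := by
  intro K _ e τ h20 he
  have hor : ∀ (X Y : (Fin 6 → K) → Prop) (c : Prop), Cap e X → Cap e Y →
      Cap e (fun p => (c ∧ X p) ∨ (¬ c ∧ Y p)) := by
    intro X Y c hX hY p q hp hq hp0 hq0 hpX hqX hB
    rcases hpX with ⟨hc, hpX⟩ | ⟨hc, hpX⟩
    · rcases hqX with ⟨_, hqX⟩ | ⟨hc', _⟩
      · exact hX p q hp hq hp0 hq0 hpX hqX hB
      · exact absurd hc hc'
    · rcases hqX with ⟨hc', _⟩ | ⟨_, hqX⟩
      · exact absurd hc' hc
      · exact hY p q hp hq hp0 hq0 hpX hqX hB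
  have hor2 : ∀ (X Y : (Fin 6 → K) → Prop) (t : K), Cap e X → Cap e Y →
      Cap e (fun p => (t = 0 ∧ X p) ∨ (t ≠ 0 ∧ Y p)) := fun X Y t hX hY => hor X Y (t = 0) hX hY
  refine ⟨?_, ?_, ?_, ?_⟩
  · rintro (⟨r, t⟩ | t | u)
    · exact hor _ _ (r = 0 ∧ t = τ) (h4 K e τ h20 he) (h1 K e 1 r t h20 he (Or.inl one_ne_zero))
    · exact h1 K e 0 1 t h20 he (Or.inr one_ne_zero)
    · exact h3 K e τ h20 he
  · rintro (⟨r, t⟩ | t | u)
    · exact hor _ _ (r = 0 ∧ t = 0) (h4 K e 0 h20 he) (h1 K e 1 r t h20 he (Or.inl one_ne_zero))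
    · exact hor2 _ _ t (h5 K e h20 he) (h1 K e 0 1 t h20 he (Or.inr one_ne_zero))
    · exact h6 K e h20 he
  · intro p hp hQ
    by_cases h01 : p 0 = 0 ∧ p 1 = 0
    · by_cases hh : τ * p 5 = 2 * e * p 2
      · exact ⟨Sum.inr (Sum.inr ()), h01.1, hh⟩
      · exact ⟨Sum.inl (0, τ), Or.inl ⟨⟨rfl, rfl⟩, Or.inl ⟨h01.1, h01.2, hh⟩⟩⟩
    · have h01' : p 0 ≠ 0 ∨ p 1 ≠ 0 := by
        by_contra h
        push Not at h
        exact h01 h
      rcases h2 K e h20 he p hp hQ h01' with ⟨r, t, h⟩ | ⟨t, h⟩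
      · by_cases hrt : r = 0 ∧ t = τ
        · obtain ⟨hr, ht⟩ := hrt
          rcases h with ⟨-, a1, a2⟩ | ⟨a1, c, hc, a2, a3, a4⟩
          · refine ⟨Sum.inr (Sum.inr ()), ?_, ?_⟩
            · rw [hr] at a1
              linear_combination a1
            · rw [hr, ht] at a2
              linear_combination a2
          · refine ⟨Sum.inl (0, τ), Or.inl ⟨⟨rfl, rfl⟩, Or.inr ⟨a1, ?_, ?_, ?_⟩⟩⟩
            · rw [a3, hr, mul_zero]
            · rw [a4, a2, ht]
              ring
            · rw [a2, mul_one]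
              exact hc
        · exact ⟨Sum.inl (r, t), Or.inr ⟨hrt, h⟩⟩
      · exact ⟨Sum.inr (Sum.inl t), h⟩
  · intro p hp hQ
    by_cases h01 : p 0 = 0 ∧ p 1 = 0
    · by_cases hh : p 2 = 0
      · by_cases h54 : p 5 = - p 4
        · exact ⟨Sum.inr (Sum.inl 0), Or.inl ⟨rfl, Or.inl ⟨h01.1, hh, h54⟩⟩⟩
        · exact ⟨Sum.inr (Sum.inr ()), Or.inl ⟨h01.1, hh, h54⟩⟩
      · refine ⟨Sum.inl (0, 0), Or.inl ⟨⟨rfl, rfl⟩, Or.inl ⟨h01.1, h01.2, ?_⟩⟩⟩
        rw [zero_mul]
        have he0 : e ≠ 0 := fun h => he 0 (by rw [h]; ring)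
        exact fun h => mul_ne_zero (mul_ne_zero h20 he0) hh h.symm
    · have h01' : p 0 ≠ 0 ∨ p 1 ≠ 0 := by
        by_contra h
        push Not at h
        exact h01 h
      have he0 : e ≠ 0 := fun h => he 0 (by rw [h]; ring)
      rcases h2 K e h20 he p hp hQ h01' with ⟨r, t, h⟩ | ⟨t, h⟩
      · by_cases hrt : r = 0 ∧ t = 0
        · obtain ⟨hr, ht⟩ := hrt
          rcases h with ⟨-, a1, a2⟩ | ⟨a1, c, hc, a2, a3, a4⟩
          · have hp0 : p 0 = 0 := by
              rw [hr] at a1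
              linear_combination a1
            have hp2 : p 2 = 0 := by
              rw [hr, ht] at a2
              have h7 : 2 * e * p 2 = 0 := by linear_combination -a2
              rcases mul_eq_zero.1 h7 with h | h
              · exact absurd h (mul_ne_zero h20 he0)
              · exact h
            by_cases h54 : p 5 = - p 4
            · exact ⟨Sum.inr (Sum.inl 0), Or.inl ⟨rfl, Or.inl ⟨hp0, hp2, h54⟩⟩⟩
            · exact ⟨Sum.inr (Sum.inr ()), Or.inl ⟨hp0, hp2, h54⟩⟩
          · refine ⟨Sum.inl (0, 0), Or.inl ⟨⟨rfl, rfl⟩, Or.inr ⟨a1, ?_, ?_, ?_⟩⟩⟩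
            · rw [a3, hr, mul_zero]
            · rw [a4, ht]
              ring
            · rw [a2, mul_one]
              exact hc
        · exact ⟨Sum.inl (r, t), Or.inr ⟨hrt, h⟩⟩
      · by_cases ht : t = 0
        · rcases h with ⟨a0, a1, a2⟩ | ⟨a1, c, hc, a2, a3, a4⟩
          · have hp1 : p 1 = 0 := by
              have h7 : e * p 1 = 0 := by linear_combination -a1
              rcases mul_eq_zero.1 h7 with h | h
              · exact absurd h he0
              · exact h
            have hp3 : p 3 = 0 := by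
              rw [ht] at a2
              have h7 : 2 * e * e * p 3 = 0 := by linear_combination a2
              rcases mul_eq_zero.1 h7 with h | h
              · exact absurd h (mul_ne_zero (mul_ne_zero h20 he0) he0)
              · exact h
            have hp0 : p 0 ≠ 0 := by
              rcases a0 with a0 | a0
              · exact a0
              · exact absurd hp1 a0
            by_cases h54 : p 5 = p 4
            · exact ⟨Sum.inr (Sum.inr ()), Or.inr ⟨hp1, hp3, h54⟩⟩
            · exact ⟨Sum.inr (Sum.inl 0), Or.inl ⟨rfl, Or.inr (Or.inl ⟨hp1, hp3, hp0, h54⟩)⟩⟩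
          · have hp2 : p 2 = 0 := by rw [a2, mul_zero]
            have hp4 : p 4 = 0 := by rw [a4, ht, mul_zero]
            have hp0 : p 0 ≠ 0 := by
              intro h0
              have hp1 : p 1 ≠ 0 := by
                rcases h01' with h | h
                · exact absurd h0 h
                · exact h
              unfold QF at hQ
              rw [h0, hp2, hp4, a1] at hQ
              -- e^2 p3^2 = e p1^2
              have h8 : e * (p 1 ^ 2 - e * p 3 ^ 2) = 0 := by linear_combination -hQ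
              have h9 : p 1 ^ 2 = e * p 3 ^ 2 := by
                rcases mul_eq_zero.1 h8 with h | h
                · exact absurd h he0
                · linear_combination h
              exact hp1 (GC.norm_zero he h9).1
            exact ⟨Sum.inr (Sum.inl 0), Or.inl ⟨rfl, Or.inr (Or.inr ⟨a1, hp4, hp2, hp0⟩)⟩⟩
        · exact ⟨Sum.inr (Sum.inl t), Or.inr ⟨ht, h⟩⟩

end H74PK
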