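import Pool.Agent.K6.H74.PK.Stm

/-! # Piece KEY -/

set_option autoImplicit false

namespace H74PK

theorem t_KEY (hL : S_LC) (hA : S_EQA) : S_KEY := by
  intro K _ _ F hF hd hc L L' hL2 hL2' hne hLF hLF' ⟨x, hx0, hxL, hxL'⟩ S hS hSF
  haveI : Finite (Submodule K (Fin 4 → K)) :=
    Finite.of_injective (fun W : Submodule K (Fin 4 → K) => (W : Set (Fin 4 → K)))
      SetLike.coe_injective
  have hP := hL K x hx0
  constructor
  · intro h1 h2
    have h3 := hS.2.1 L h1 L' h2 hne
    rw [Submodule.disjoint_def] at h3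
    exact hx0 (h3 x hxL hxL')
  · intro h2
    by_contra h1
    obtain ⟨N, hNS, hxN⟩ := hA K S hS x hx0
    choose! M hM1 hM2 using
      fun (S' : Set (Submodule K (Fin 4 → K))) (h : S' ∈ F) => hA K S' (hF S' h) x hx0
    have hinj : Set.InjOn M F := by
      intro S1 g1 S2 g2 g12
      by_contra hn
      have g3 := hM1 S2 g2
      rw [← g12] at g3
      exact Set.disjoint_left.1 (hd S1 g1 S2 g2 hn) (hM1 S1 g1) g3
    have hN : N ∉ M '' F := by
      rintro ⟨S', g1, g2⟩
      have g3 := hM1 S' g1
      rw [g2] at g3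
      exact Set.disjoint_left.1 (hSF S' g1) hNS g3
    have hL'N : L' ∉ insert N (M '' F) := by
      intro h
      rcases Set.mem_insert_iff.1 h with h | ⟨S', g1, g2⟩
      · rw [h] at h2
        exact h2 hNS
      · have g3 := hM1 S' g1
        rw [g2] at g3
        exact hLF' S' g1 g3
    have hLN : L ∉ insert L' (insert N (M '' F)) := by
      intro h
      rcases Set.mem_insert_iff.1 h with h | h
      · exact hne h
      rcases Set.mem_insert_iff.1 h with h | ⟨S', g1, g2⟩
      · rw [h] at h1
        exact h1 hNS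
      · have g3 := hM1 S' g1
        rw [g2] at g3
        exact hLF S' g1 g3
    have hsub : insert L (insert L' (insert N (M '' F))) ⊆
        {W : Submodule K (Fin 4 → K) | Module.finrank K W = 2 ∧ x ∈ W} := by
      intro W hW
      rcases Set.mem_insert_iff.1 hW with rfl | hW
      · exact ⟨hL2, hxL⟩
      rcases Set.mem_insert_iff.1 hW with rfl | hW
      · exact ⟨hL2', hxL'⟩
      rcases Set.mem_insert_iff.1 hW with rfl | ⟨S', g1, rfl⟩
      · exact ⟨hS.1 _ hNS, hxN⟩
      · exact ⟨(hF S' g1).1 _ (hM1 S' g1), hM2 S' g1⟩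
    have hcard : (insert L (insert L' (insert N (M '' F)))).ncard = F.ncard + 3 := by
      rw [Set.ncard_insert_of_notMem hLN (Set.toFinite _),
        Set.ncard_insert_of_notMem hL'N (Set.toFinite _),
        Set.ncard_insert_of_notMem hN (Set.toFinite _), hinj.ncard_image]
    have h5 := Set.ncard_le_ncard hsub (Set.toFinite _)
    omega

end H74PK
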