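import Pool.Agent.K6.H74.PK.Stm

/-!
Piece `LC` of the call `call74` (MP_9569f1_co, statement of helper74, proof of helper95): the number
of lines of `PG(3,q)` through a point.
-/

set_option autoImplicit false

namespace H74PK

namespace LC

theorem finrank_map {K : Type} [Field K] (N W : Submodule K (Fin 4 → K)) (h : N ≤ W) :
    Module.finrank K (W.map N.mkQ) + Module.finrank K N = Module.finrank K W := by
  have h1 := LinearMap.finrank_range_add_finrank_ker (N.mkQ.domRestrict W)
  have h2 : LinearMap.range (N.mkQ.domRestrict W) = W.map N.mkQ := by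
    rw [LinearMap.domRestrict, LinearMap.range_comp, Submodule.range_subtype]
  have h3 : LinearMap.ker (N.mkQ.domRestrict W) = N.comap W.subtype := by
    rw [LinearMap.domRestrict, LinearMap.ker_comp, Submodule.ker_mkQ]
  have h4 : Module.finrank K (N.comap W.subtype) = Module.finrank K N :=
    LinearEquiv.finrank_eq (Submodule.comapSubtypeEquivOfLe h)
  rw [h2, h3, h4] at h1
  exact h1

end LC

theorem t_LC : S_LC := by
  intro K _ _ v hv
  set N : Submodule K (Fin 4 → K) := Submodule.span K {v} with hNdef
  have hN : Module.finrank K N = 1 := finrank_span_singleton hv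
  have hQ : Module.finrank K ((Fin 4 → K) ⧸ N) = 3 := by
    have := Submodule.finrank_quotient_add_finrank N
    rw [hN, Module.finrank_fin_fun] at this
    omega
  have hle : ∀ W : Submodule K (Fin 4 → K), v ∈ W → N ≤ W := fun W hW => by
    rw [hNdef, Submodule.span_singleton_le_iff_mem]
    exact hW
  let e : {W : Submodule K (Fin 4 → K) | Module.finrank K W = 2 ∧ v ∈ W} ≃
      {H : Submodule K ((Fin 4 → K) ⧸ N) // Module.finrank K H = 1} :=
    { toFun := fun W => ⟨W.1.map N.mkQ, by
        have h := LC.finrank_map N W.1 (hle W.1 W.2.2)
        have h2 := W.2.1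
        omega⟩
      invFun := fun H => ⟨H.1.comap N.mkQ, by
        have h := LC.finrank_map N (H.1.comap N.mkQ) (Submodule.le_comap_mkQ _ _)
        rw [Submodule.map_comap_eq_of_surjective (Submodule.mkQ_surjective N)] at h
        have h2 := H.2
        refine ⟨by omega, ?_⟩
        exact Submodule.le_comap_mkQ N H.1 (Submodule.mem_span_singleton_self v)⟩
      left_inv := by
        intro W
        apply Subtype.ext
        change (W.1.map N.mkQ).comap N.mkQ = W.1
        rw [Submodule.comap_map_mkQ]
        exact sup_eq_right.mpr (hle W.1 W.2.2)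
      right_inv := by
        intro H
        apply Subtype.ext
        change (H.1.comap N.mkQ).map N.mkQ = H.1
        exact Submodule.map_comap_eq_of_surjective (Submodule.mkQ_surjective N) H.1 }
  rw [← Nat.card_coe_set_eq, Nat.card_congr e,
    Nat.card_congr (Projectivization.equivSubmodule K ((Fin 4 → K) ⧸ N)).symm,
    Projectivization.card_of_finrank K ((Fin 4 → K) ⧸ N) hQ]
  simp only [Finset.sum_range_succ, Finset.sum_range_zero]
  ring

end H74PK
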