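import Pool.Agent.K6.H74.PK.FIN

namespace H74PK

open Module Filter

/-- `m(q)`: the least positive deficiency of a complete partial packing of `PG(3,q)`
(over any field with `q` elements) -/
noncomputable def minDef (q : ℕ) : ℕ :=
  sInf {d : ℕ | 0 < d ∧ ∃ (K : Type) (_ : Field K) (F : Set (Set (Submodule K (Fin 4 → K)))),
    Nat.card K = q ∧ IsCompletePartialPacking K d F}

theorem t_least (hF : S_FIN) (hD : S_DEF1) (K : Type) [Field K] [Finite K]
    (hodd : Odd (Nat.card K)) :
    IsLeast {d : ℕ | 0 < d ∧ ∃ F, IsCompletePartialPacking K d F} 2 := by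
  refine ⟨⟨by norm_num, hF K hodd⟩, ?_⟩
  rintro d ⟨hd, F, hFd⟩
  by_contra hlt
  have : d = 1 := by omega
  subst this
  exact hD K F hFd

theorem t_minDef (hF : S_FIN) (hD : S_DEF1) (q : ℕ) (hq : IsPrimePow q) (hodd : Odd q) :
    minDef q = 2 := by
  have hl : IsLeast {d : ℕ | 0 < d ∧ ∃ (K : Type) (_ : Field K)
      (F : Set (Set (Submodule K (Fin 4 → K)))), Nat.card K = q ∧
        IsCompletePartialPacking K d F} 2 := by
    constructor
    · obtain ⟨p, k, hp, hk, rfl⟩ := hq
      have hp' : p.Prime := hp.nat_prime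
      have : Fact p.Prime := ⟨hp'⟩
      have hc : Nat.card (GaloisField p k) = p ^ k := GaloisField.card p k hk.ne'
      have : Finite (GaloisField p k) := Nat.finite_of_card_ne_zero (by rw [hc]; exact pow_ne_zero _ hp'.ne_zero)
      obtain ⟨F, hF'⟩ := hF (GaloisField p k) (by rw [hc]; exact hodd)
      exact ⟨by norm_num, GaloisField p k, inferInstance, F, hc, hF'⟩
    · rintro d ⟨hd, K, _, F, hc, hFd⟩
      by_contra hlt
      have : d = 1 := by omega
      subst this
      have hq0 : q ≠ 0 := by
        rintro rfl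
        exact absurd hodd (by decide)
      have : Finite K := Nat.finite_of_card_ne_zero (by rw [hc]; exact hq0)
      exact hD K F hFd
  exact hl.csInf_eq

theorem t_notTendsto (hF : S_FIN) (hD : S_DEF1) :
    ¬ Tendsto minDef (atTop ⊓ 𝓟 {q : ℕ | IsPrimePow q}) atTop := by
  intro h
  have h1 := h.eventually (eventually_ge_atTop 3)
  rw [eventually_inf_principal] at h1
  obtain ⟨N, hN⟩ := eventually_atTop.1 h1
  obtain ⟨p, hpN, hp⟩ := Nat.exists_infinite_primes (max N 3)
  have h2 := hN p (le_trans (le_max_left _ _) hpN) hp.isPrimePow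
  have h3 : 3 ≤ p := le_trans (le_max_right _ _) hpN
  have hodd : Odd p := hp.odd_of_ne_two (by omega)
  rw [t_minDef hF hD p hp.isPrimePow hodd] at h2
  omega

end H74PK
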