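import Pool.Agent.K6.H74.PK.Stm

namespace H74PK

theorem t_PLQ : S_PLQ := by
  intro K _ a b v w v' w'
  refine ⟨?_, ?_, ?_, ?_, ?_⟩
  · simp [QF, plu, mn]; ring
  · simp [BF, plu, mn]; ring
  · simp [BF, plu, mn, Matrix.det_succ_row_zero, Fin.sum_univ_succ, Fin.succAbove]; ring
  · intro α β γ δ
    funext i
    fin_cases i <;> simp [plu, mn] <;> ring
  · intro c
    funext i
    fin_cases i <;> simp [plu, mn] <;> ring

end H74PK
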