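import Pool.Agent.K6.H74.PK.Stm

/-!
# PLZ
-/

set_option autoImplicit false

namespace H74PK

theorem t_PLZ : S_PLZ := by
  intro K _ a b h2 he v w hv h
  have e0 := congrFun h 0
  have e1 := congrFun h 1
  have e2 := congrFun h 2
  have e3 := congrFun h 3
  have e4 := congrFun h 4
  have e5 := congrFun h 5
  simp only [plu, Matrix.cons_val, Pi.zero_apply] at e0 e1 e2 e3 e4 e5
  have h01 : mn v w 0 1 = 0 := by
    rcases mul_eq_zero.1 e4 with h | h
    · exact absurd h (mul_ne_zero h2 he)
    · exact h
  have h23 : mn v w 2 3 = 0 := by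
    rcases mul_eq_zero.1 (neg_eq_zero.1 e5) with h | h
    · exact absurd h (mul_ne_zero h2 he)
    · exact h
  have f0 : -(mn v w 1 2) + mn v w 0 3 = 0 := (mul_eq_zero.1 e0).resolve_left he
  have f1 : (a ^ 2 + b ^ 2) * (-(mn v w 1 2) - mn v w 0 3) = 0 := by
    linear_combination a * e1 - b * e2
  have f2 : (a ^ 2 + b ^ 2) * (mn v w 0 2 - mn v w 1 3) = 0 := by
    linear_combination b * e1 + a * e2
  have g1 : -(mn v w 1 2) - mn v w 0 3 = 0 := (mul_eq_zero.1 f1).resolve_left he
  have g2 : mn v w 0 2 - mn v w 1 3 = 0 := (mul_eq_zero.1 f2).resolve_left he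
  have h03 : mn v w 0 3 = 0 := by
    have : 2 * mn v w 0 3 = 0 := by linear_combination f0 - g1
    exact (mul_eq_zero.1 this).resolve_left h2
  have h12 : mn v w 1 2 = 0 := by
    have : 2 * mn v w 1 2 = 0 := by linear_combination -f0 - g1
    exact (mul_eq_zero.1 this).resolve_left h2
  have h02 : mn v w 0 2 = 0 := by
    have : 2 * mn v w 0 2 = 0 := by linear_combination e3 + g2
    exact (mul_eq_zero.1 this).resolve_left h2
  have h13 : mn v w 1 3 = 0 := by
    have : 2 * mn v w 1 3 = 0 := by linear_combination e3 - g2
    exact (mul_eq_zero.1 this).resolve_left h2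
  unfold mn at *
  have hi : ∃ i, v i ≠ 0 := by
    by_contra hne
    push Not at hne
    exact hv (funext hne)
  obtain ⟨i, hi⟩ := hi
  refine ⟨w i / v i, ?_⟩
  funext j
  rw [Pi.smul_apply, smul_eq_mul, div_mul_eq_mul_div, eq_div_iff hi]
  fin_cases i <;> fin_cases j <;> simp only [Fin.zero_eta, Fin.mk_one, Fin.reduceFinMk,
    Fin.isValue] at * <;>
    first
      | ring1
      | linear_combination h01
      | linear_combination h02
      | linear_combination h03
      | linear_combination h12
      | linear_combination h13
      | linear_combination h23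
      | linear_combination -h01
      | linear_combination -h02
      | linear_combination -h03
      | linear_combination -h12
      | linear_combination -h13
      | linear_combination -h23

end H74PK
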