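import Pool.Agent.K6.H74.PK.Stm

/-! # Piece RK -/

set_option autoImplicit false

namespace H74PK

theorem RK_two {K : Type} [Field K] (v w : Fin 4 → K) :
    Module.finrank K (Submodule.span K {v, w}) = 2 ↔ LinearIndependent K ![v, w] := by
  rw [linearIndependent_iff_card_eq_finrank_span, Set.finrank]
  have h : Set.range ![v, w] = {v, w} := by
    ext u
    simp only [Matrix.range_cons, Matrix.range_empty, Set.union_empty, Set.mem_union,
      Set.mem_singleton_iff, Set.mem_insert_iff]
  rw [h, Fintype.card_fin]
  exact eq_comm

theorem RK_dep {K : Type} [Field K] (a b : K) (v w : Fin 4 → K) (h : plu a b v w ≠ 0) :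
    LinearIndependent K ![v, w] := by
  rw [LinearIndependent.pair_iff]
  intro s t hst
  have hc : ∀ i, s * v i + t * w i = 0 := fun i => by
    have := congrFun hst i
    simpa using this
  have hm : (∀ i j, mn v w i j = 0) → False := by
    intro h0
    apply h
    ext k
    fin_cases k <;> simp [plu, h0]
  constructor
  · by_contra hs
    apply hm
    intro i j
    have h5 : s * mn v w i j = 0 := by
      unfold mn
      linear_combination w j * hc i - w i * hc j
    exact (mul_eq_zero.1 h5).resolve_left hs
  · by_contra ht
    apply hm
    intro i j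
    have h5 : t * mn v w i j = 0 := by
      unfold mn
      linear_combination v i * hc j - v j * hc i
    exact (mul_eq_zero.1 h5).resolve_left ht

theorem t_RK (hZ : S_PLZ) : S_RK := by
  intro K _ a b h2 hab
  refine ⟨fun v w => ?_, fun W v hW hv hv0 => ?_⟩
  · rw [RK_two]
    refine ⟨fun hli h0 => ?_, fun h => RK_dep a b v w h⟩
    have hv0 : v ≠ 0 := by
      have := hli.ne_zero 0
      simpa using this
    obtain ⟨c, hc⟩ := hZ K a b h2 hab v w hv0 h0
    rw [LinearIndependent.pair_iff' hv0] at hli
    exact hli c hc.symm
  · have hex : ∃ w ∈ W, w ∉ Submodule.span K {v} := by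
      by_contra hn
      push Not at hn
      have h1 : W ≤ Submodule.span K {v} := hn
      have h3 := Submodule.finrank_mono h1
      rw [finrank_span_singleton hv0, hW] at h3
      omega
    obtain ⟨w, hw, hw2⟩ := hex
    refine ⟨w, ?_⟩
    symm
    apply Submodule.eq_of_le_of_finrank_eq
    · rw [Submodule.span_le]
      intro u hu
      rcases hu with rfl | hu
      · exact hv
      · rw [Set.mem_singleton_iff] at hu
        rw [hu]
        exact hw
    · rw [hW, RK_two, LinearIndependent.pair_iff' hv0]
      intro c hc
      apply hw2
      rw [← hc]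
      exact Submodule.smul_mem _ _ (Submodule.mem_span_singleton_self v)

end H74PK
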