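import Mathlib

/-!
# Complete partial packings of `PG(3,q)` of deficiency two, `q` odd: vocabulary and pieces

The lines of `PG(3,K)` are the two-dimensional subspaces of `K^4`; `plu a b v w` is a version of the
Klein correspondence adapted to the quadratic form
`QF e p = x0^2 - e x1^2 - e y0^2 + e^2 y1^2 + s u`, `p = (x0,x1,y0,y1,s,u)`, `e = a^2+b^2` a nonsquare.
-/

namespace H74PK

/-- a spread of `PG(3,K)` -/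
def IsSpread (K : Type) [Field K] (S : Set (Submodule K (Fin 4 → K))) : Prop :=
  (∀ W ∈ S, Module.finrank K W = 2) ∧
  (∀ W ∈ S, ∀ W' ∈ S, W ≠ W' → Disjoint W W') ∧
  S.ncard = Nat.card K ^ 2 + 1

/-- a complete partial packing of deficiency `d` -/
def IsCompletePartialPacking (K : Type) [Field K] (d : ℕ)
    (F : Set (Set (Submodule K (Fin 4 → K)))) : Prop :=
  (∀ S ∈ F, IsSpread K S) ∧
  (∀ S ∈ F, ∀ S' ∈ F, S ≠ S' → Disjoint S S') ∧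
  F.ncard + d = Nat.card K ^ 2 + Nat.card K + 1 ∧
  ∀ S, IsSpread K S → ∃ S' ∈ F, ¬ Disjoint S S'

section vocab
variable {K : Type} [Field K]

/-- the quadratic form -/
def QF (e : K) (p : Fin 6 → K) : K :=
  p 0 ^ 2 - e * p 1 ^ 2 - e * p 2 ^ 2 + e ^ 2 * p 3 ^ 2 + p 4 * p 5

/-- its polar form -/
def BF (e : K) (p q : Fin 6 → K) : K :=
  2 * p 0 * q 0 - 2 * e * p 1 * q 1 - 2 * e * p 2 * q 2 + 2 * e ^ 2 * p 3 * q 3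
    + p 4 * q 5 + p 5 * q 4

/-- a Pluecker minor -/
def mn (v w : Fin 4 → K) (i j : Fin 4) : K := v i * w j - v j * w i

/-- Klein correspondence adapted to `QF (a^2+b^2)` -/
def plu (a b : K) (v w : Fin 4 → K) : Fin 6 → K :=
  ![(a ^ 2 + b ^ 2) * (-(mn v w 1 2) + mn v w 0 3),
    a * (-(mn v w 1 2) - mn v w 0 3) + b * (mn v w 0 2 - mn v w 1 3),
    a * (mn v w 0 2 - mn v w 1 3) - b * (-(mn v w 1 2) - mn v w 0 3),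
    mn v w 0 2 + mn v w 1 3,
    2 * (a ^ 2 + b ^ 2) * mn v w 0 1,
    -(2 * (a ^ 2 + b ^ 2) * mn v w 2 3)]

/-- a cone predicate -/
def Cone (X : (Fin 6 → K) → Prop) : Prop := ∀ p : Fin 6 → K, ∀ c : K, c ≠ 0 → X p → X (c • p)

/-- a cap predicate: two perpendicular singular points in it are equal -/
def Cap (e : K) (X : (Fin 6 → K) → Prop) : Prop :=
  ∀ p q : Fin 6 → K, p ≠ 0 → q ≠ 0 → QF e p = 0 → QF e q = 0 → X p → X q → BF e p q = 0 →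
    ∃ c : K, q = c • p

/-- the class of index `(z0,z1,t)` -/
def SC (e z0 z1 t : K) (p : Fin 6 → K) : Prop :=
  ((p 0 ≠ 0 ∨ p 1 ≠ 0) ∧ p 0 * z0 = e * p 1 * z1 ∧
      t * p 5 = 2 * e * (p 2 * z0 - e * p 3 * z1)) ∨
  (p 5 = 0 ∧ ∃ c : K, c ≠ 0 ∧ p 2 = c * z0 ∧ p 3 = c * z1 ∧ p 4 = c * t)

/-- the regular spread `Sigma'_h` -/
def SH (e τ : K) (p : Fin 6 → K) : Prop := p 0 = 0 ∧ τ * p 5 = 2 * e * p 2

/-- the spread `Y_h` -/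
def YH (e τ : K) (p : Fin 6 → K) : Prop :=
  (p 0 = 0 ∧ p 1 = 0 ∧ τ * p 5 ≠ 2 * e * p 2) ∨
  (p 5 = 0 ∧ p 3 = 0 ∧ p 4 = τ * p 2 ∧ p 2 ≠ 0)

/-- the spread `T` -/
def TT (p : Fin 6 → K) : Prop :=
  (p 0 = 0 ∧ p 2 = 0 ∧ p 5 = -p 4) ∨ (p 1 = 0 ∧ p 3 = 0 ∧ p 0 ≠ 0 ∧ p 5 ≠ p 4) ∨
  (p 5 = 0 ∧ p 4 = 0 ∧ p 2 = 0 ∧ p 0 ≠ 0)

/-- the spread `X` -/
def XX (p : Fin 6 → K) : Prop :=
  (p 0 = 0 ∧ p 2 = 0 ∧ p 5 ≠ -p 4) ∨ (p 1 = 0 ∧ p 3 = 0 ∧ p 5 = p 4)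

/-- the index set, with `q^2+q+1` elements -/
abbrev Idx (K : Type) := (K × K) ⊕ (K ⊕ Unit)

/-- first colouring -/
def G1 (e τ : K) : Idx K → (Fin 6 → K) → Prop
  | Sum.inl (r, t) => fun p => ((r = 0 ∧ t = τ) ∧ YH e τ p) ∨ (¬ (r = 0 ∧ t = τ) ∧ SC e 1 r t p)
  | Sum.inr (Sum.inl t) => fun p => SC e 0 1 t p
  | Sum.inr (Sum.inr _) => fun p => SH e τ p

/-- second colouring -/
def G2 (e : K) : Idx K → (Fin 6 → K) → Prop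
  | Sum.inl (r, t) => fun p => ((r = 0 ∧ t = 0) ∧ YH e 0 p) ∨ (¬ (r = 0 ∧ t = 0) ∧ SC e 1 r t p)
  | Sum.inr (Sum.inl t) => fun p => (t = 0 ∧ TT p) ∨ (t ≠ 0 ∧ SC e 0 1 t p)
  | Sum.inr (Sum.inr _) => fun p => XX p

/-- the set of lines with Klein point in `X` -/
def Lns (a b : K) (X : (Fin 6 → K) → Prop) : Set (Submodule K (Fin 4 → K)) :=
  {W | Module.finrank K W = 2 ∧ ∃ v w : Fin 4 → K, W = Submodule.span K {v, w} ∧ X (plu a b v w)}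

/-- the five lines of the odd cycle -/
def c1 (m n : K) : Fin 6 → K := ![m, 0, n, 0, 1, 1]
def c2 (e m n : K) : Fin 6 → K := ![e * n, 1, m, 0, 0, 0]
def c3 (e m n : K) : Fin 6 → K := ![e * n, 1, m, 0, 4 * e * m * n, 0]
def c4 (e m n y : K) : Fin 6 → K := ![0, 2 * m * n, 0, y, e * (4 * m ^ 2 * n ^ 2 - e * y ^ 2), 1]
def c5 (e m n : K) : Fin 6 → K := ![-(e * n), 1, m, 0, 4 * e * m * n, 0]

/-- not in any of the `q^2+q-1` classes of the final partial packing -/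
def Left (e τ : K) (p : Fin 6 → K) : Prop :=
  ¬ SH e τ p ∧ ¬ TT p ∧ (∀ r t : K, ¬ (r = 0 ∧ t = τ) → ¬ (r = 0 ∧ t = 0) → ¬ SC e 1 r t p) ∧
  (∀ t : K, t ≠ 0 → ¬ SC e 0 1 t p)

end vocab

/-! ## The pieces -/

/-- EX -/
def S_EX : Prop := ∀ (K : Type) [Field K] [Finite K], Odd (Nat.card K) →
  (2 : K) ≠ 0 ∧ ∃ a b m n : K, (∀ x : K, x ^ 2 ≠ a ^ 2 + b ^ 2) ∧
    m ^ 2 - (a ^ 2 + b ^ 2) * n ^ 2 = -1 ∧ m ≠ 0 ∧ n ≠ 0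

/-- PLQ -/
def S_PLQ : Prop := ∀ (K : Type) [Field K] (a b : K) (v w v' w' : Fin 4 → K),
  QF (a ^ 2 + b ^ 2) (plu a b v w) = 0 ∧
  BF (a ^ 2 + b ^ 2) (plu a b v w) (plu a b v w') = 0 ∧
  BF (a ^ 2 + b ^ 2) (plu a b v w) (plu a b v' w') =
    -(4 * (a ^ 2 + b ^ 2) ^ 2) * (Matrix.of ![v, w, v', w']).det ∧
  (∀ α β γ δ : K, plu a b (α • v + β • w) (γ • v + δ • w) = (α * δ - β * γ) • plu a b v w) ∧
  (∀ c : K, plu a b v (w' - c • w) = plu a b v w' - c • plu a b v w)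

/-- PLZ -/
def S_PLZ : Prop := ∀ (K : Type) [Field K] (a b : K), (2 : K) ≠ 0 → a ^ 2 + b ^ 2 ≠ 0 →
  ∀ v w : Fin 4 → K, v ≠ 0 → plu a b v w = 0 → ∃ c : K, w = c • v

/-- SUR -/
def S_SUR : Prop := ∀ (K : Type) [Field K] (a b : K), (2 : K) ≠ 0 → a ^ 2 + b ^ 2 ≠ 0 →
  ∀ p : Fin 6 → K, p ≠ 0 → QF (a ^ 2 + b ^ 2) p = 0 → ∃ v w : Fin 4 → K, plu a b v w = p

/-- MEET (may use S_PLQ, S_PLZ as hypotheses) -/
def S_MEET : Prop := ∀ (K : Type) [Field K] (a b : K), (2 : K) ≠ 0 → a ^ 2 + b ^ 2 ≠ 0 →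
  ∀ v w v' w' : Fin 4 → K, plu a b v w ≠ 0 → plu a b v' w' ≠ 0 →
    BF (a ^ 2 + b ^ 2) (plu a b v w) (plu a b v' w') = 0 →
    ∃ x : Fin 4 → K, x ≠ 0 ∧ x ∈ Submodule.span K {v, w} ∧ x ∈ Submodule.span K {v', w'}

/-- RK -/
def S_RK : Prop := ∀ (K : Type) [Field K] (a b : K), (2 : K) ≠ 0 → a ^ 2 + b ^ 2 ≠ 0 →
  (∀ v w : Fin 4 → K, Module.finrank K (Submodule.span K {v, w}) = 2 ↔ plu a b v w ≠ 0) ∧
  (∀ (W : Submodule K (Fin 4 → K)) (v : Fin 4 → K), Module.finrank K W = 2 → v ∈ W → v ≠ 0 →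
    ∃ w : Fin 4 → K, W = Submodule.span K {v, w})

/-- LC -/
def S_LC : Prop := ∀ (K : Type) [Field K] [Finite K] (v : Fin 4 → K), v ≠ 0 →
  {W : Submodule K (Fin 4 → K) | Module.finrank K W = 2 ∧ v ∈ W}.ncard =
    Nat.card K ^ 2 + Nat.card K + 1

/-- EQA -/
def S_EQA : Prop := ∀ (K : Type) [Field K] [Finite K] (S : Set (Submodule K (Fin 4 → K))),
  IsSpread K S → ∀ v : Fin 4 → K, v ≠ 0 → ∃ W ∈ S, v ∈ W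

/-- EQB -/
def S_EQB : Prop := ∀ (K : Type) [Field K] [Finite K] (S : Set (Submodule K (Fin 4 → K))),
  (∀ W ∈ S, Module.finrank K W = 2) →
  (∀ v : Fin 4 → K, v ≠ 0 → ∃ W ∈ S, v ∈ W) →
  (∀ W ∈ S, ∀ W' ∈ S, W ≠ W' → Disjoint W W') → IsSpread K S

/-- TR (may use S_LC, S_EQB as hypotheses) -/
def S_TR : Prop := ∀ (K : Type) [Field K] [Finite K] (C : Idx K → Set (Submodule K (Fin 4 → K))),
  (∀ i, ∀ W ∈ C i, Module.finrank K W = 2) →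
  (∀ W : Submodule K (Fin 4 → K), Module.finrank K W = 2 → ∃ i, W ∈ C i) →
  (∀ i, ∀ W ∈ C i, ∀ W' ∈ C i, W ≠ W' → Disjoint W W') →
  (∀ i, IsSpread K (C i)) ∧ ∀ i j, i ≠ j → Disjoint (C i) (C j)

/-- KEY (may use S_LC, S_EQA as hypotheses) -/
def S_KEY : Prop := ∀ (K : Type) [Field K] [Finite K] (F : Set (Set (Submodule K (Fin 4 → K)))),
  (∀ S ∈ F, IsSpread K S) → (∀ S ∈ F, ∀ S' ∈ F, S ≠ S' → Disjoint S S') →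
  F.ncard + 2 = Nat.card K ^ 2 + Nat.card K + 1 →
  ∀ L L' : Submodule K (Fin 4 → K), Module.finrank K L = 2 → Module.finrank K L' = 2 → L ≠ L' →
  (∀ S ∈ F, L ∉ S) → (∀ S ∈ F, L' ∉ S) → (∃ x : Fin 4 → K, x ≠ 0 ∧ x ∈ L ∧ x ∈ L') →
  ∀ S, IsSpread K S → (∀ S' ∈ F, Disjoint S S') → (L ∈ S ↔ L' ∉ S)

/-- DEF1 (may use S_LC, S_EQA, S_EQB as hypotheses) -/
def S_DEF1 : Prop := ∀ (K : Type) [Field K] [Finite K] (F : Set (Set (Submodule K (Fin 4 → K)))),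
  ¬ IsCompletePartialPacking K 1 F

/-- CSC -/
def S_CSC : Prop := ∀ (K : Type) [Field K] (e z0 z1 t : K), (2 : K) ≠ 0 → (∀ x : K, x ^ 2 ≠ e) →
  (z0 ≠ 0 ∨ z1 ≠ 0) → Cap e (SC e z0 z1 t)

/-- COV -/
def S_COV : Prop := ∀ (K : Type) [Field K] (e : K), (2 : K) ≠ 0 → (∀ x : K, x ^ 2 ≠ e) →
  ∀ p : Fin 6 → K, p ≠ 0 → QF e p = 0 → (p 0 ≠ 0 ∨ p 1 ≠ 0) →
    (∃ r t : K, SC e 1 r t p) ∨ (∃ t : K, SC e 0 1 t p)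

/-- CSH -/
def S_CSH : Prop := ∀ (K : Type) [Field K] (e τ : K), (2 : K) ≠ 0 → (∀ x : K, x ^ 2 ≠ e) →
  Cap e (SH e τ)

/-- CYH -/
def S_CYH : Prop := ∀ (K : Type) [Field K] (e τ : K), (2 : K) ≠ 0 → (∀ x : K, x ^ 2 ≠ e) →
  Cap e (YH e τ)

/-- CTT -/
def S_CTT : Prop := ∀ (K : Type) [Field K] (e : K), (2 : K) ≠ 0 → (∀ x : K, x ^ 2 ≠ e) →
  Cap e (TT (K := K))

/-- CXX -/
def S_CXX : Prop := ∀ (K : Type) [Field K] (e : K), (2 : K) ≠ 0 → (∀ x : K, x ^ 2 ≠ e) →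
  Cap e (XX (K := K))

/-- CONE -/
def S_CONE : Prop := ∀ (K : Type) [Field K] (e τ : K),
  (∀ i, Cone (G1 e τ i)) ∧ (∀ i, Cone (G2 e i)) ∧ Cone (SH e τ) ∧ Cone (TT (K := K)) ∧
  (∀ z0 z1 t : K, Cone (SC e z0 z1 t))

/-- GC (may use S_CSC, S_COV, S_CSH, S_CYH, S_CTT, S_CXX as hypotheses) -/
def S_GC : Prop := ∀ (K : Type) [Field K] (e τ : K), (2 : K) ≠ 0 → (∀ x : K, x ^ 2 ≠ e) →
  (∀ i, Cap e (G1 e τ i)) ∧ (∀ i, Cap e (G2 e i)) ∧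
  (∀ p : Fin 6 → K, p ≠ 0 → QF e p = 0 → ∃ i, G1 e τ i p) ∧
  (∀ p : Fin 6 → K, p ≠ 0 → QF e p = 0 → ∃ i, G2 e i p)

/-- LNS (may use S_PLQ, S_PLZ, S_RK as hypotheses) -/
def S_LNS : Prop := ∀ (K : Type) [Field K] (a b : K), (2 : K) ≠ 0 → a ^ 2 + b ^ 2 ≠ 0 →
  ∀ X : (Fin 6 → K) → Prop, Cone X →
  (Cap (a ^ 2 + b ^ 2) X → ∀ W ∈ Lns a b X, ∀ W' ∈ Lns a b X, W ≠ W' → Disjoint W W') ∧
  (∀ v w : Fin 4 → K, plu a b v w ≠ 0 →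
    (Submodule.span K {v, w} ∈ Lns a b X ↔ X (plu a b v w)))

/-- CY1 -/
def S_CY1 : Prop := ∀ (K : Type) [Field K] (e m n y : K), (2 : K) ≠ 0 → (∀ x : K, x ^ 2 ≠ e) →
  m ^ 2 - e * n ^ 2 = -1 → m ≠ 0 → n ≠ 0 →
  (QF e (c1 m n) = 0 ∧ QF e (c2 e m n) = 0 ∧ QF e (c3 e m n) = 0 ∧ QF e (c4 e m n y) = 0 ∧
    QF e (c5 e m n) = 0) ∧
  (BF e (c1 m n) (c2 e m n) = 0 ∧ BF e (c2 e m n) (c3 e m n) = 0 ∧
    BF e (c3 e m n) (c4 e m n y) = 0 ∧ BF e (c4 e m n y) (c5 e m n) = 0 ∧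
    BF e (c5 e m n) (c1 m n) = 0) ∧
  (c1 m n ≠ 0 ∧ c2 e m n ≠ 0 ∧ c3 e m n ≠ 0 ∧ c4 e m n y ≠ 0 ∧ c5 e m n ≠ 0) ∧
  (∀ c : K, c1 m n ≠ c • c2 e m n ∧ c2 e m n ≠ c • c3 e m n ∧ c3 e m n ≠ c • c4 e m n y ∧
    c4 e m n y ≠ c • c5 e m n ∧ c5 e m n ≠ c • c1 m n)

/-- CY2 -/
def S_CY2 : Prop := ∀ (K : Type) [Field K] (e m n y : K), (2 : K) ≠ 0 → (∀ x : K, x ^ 2 ≠ e) →
  m ^ 2 - e * n ^ 2 = -1 → m ≠ 0 → n ≠ 0 → e * (4 * m ^ 2 * n ^ 2 - e * y ^ 2) ≠ -1 →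
  Left e (4 * e * n) (c1 m n) ∧ Left e (4 * e * n) (c2 e m n) ∧ Left e (4 * e * n) (c3 e m n) ∧
  Left e (4 * e * n) (c4 e m n y) ∧ Left e (4 * e * n) (c5 e m n)

/-- DIS -/
def S_DIS : Prop := ∀ (K : Type) [Field K] (e τ : K), (2 : K) ≠ 0 → (∀ x : K, x ^ 2 ≠ e) →
  τ ≠ 0 → ∀ p : Fin 6 → K, p ≠ 0 → QF e p = 0 → SH e τ p → ¬ TT p

/-- FIN (uses everything) -/
def S_FIN : Prop := ∀ (K : Type) [Field K] [Finite K], Odd (Nat.card K) →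
  ∃ F, IsCompletePartialPacking K 2 F

end H74PK
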