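import Pool.Agent.K6.H74.PK.Stm

/-! # Piece TR (helper53) -/

set_option autoImplicit false

namespace H74PK

theorem t_TR (hL : S_LC) (hB : S_EQB) : S_TR := by
  intro K _ _ C h2 hcov hdis
  have hcard : Nat.card (Idx K) = Nat.card K ^ 2 + Nat.card K + 1 := by
    have h1 : Nat.card ((K × K) ⊕ (K ⊕ Unit)) = Nat.card (K × K) + Nat.card (K ⊕ Unit) :=
      Nat.card_sum
    have h3 : Nat.card (K ⊕ Unit) = Nat.card K + Nat.card Unit := Nat.card_sum
    show Nat.card ((K × K) ⊕ (K ⊕ Unit)) = _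
    have h4 : Nat.card Unit = 1 := by simp
    rw [h1, h3, Nat.card_prod, h4]
    ring
  have key : ∀ v : Fin 4 → K, v ≠ 0 →
      ∃ f : {W : Submodule K (Fin 4 → K) | Module.finrank K W = 2 ∧ v ∈ W} → Idx K,
        Function.Bijective f ∧ ∀ W, W.1 ∈ C (f W) := by
    intro v hv
    have hex : ∀ W : {W : Submodule K (Fin 4 → K) | Module.finrank K W = 2 ∧ v ∈ W},
        ∃ i, W.1 ∈ C i := fun W => hcov W.1 W.2.1
    choose f hf using hex
    have hinj : Function.Injective f := by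
      intro W W' h
      by_contra hne
      have h1 : W.1 ≠ W'.1 := fun h' => hne (Subtype.ext h')
      have h3 := hdis (f W) W.1 (hf W) W'.1 (by rw [h]; exact hf W') h1
      exact hv ((Submodule.disjoint_def.1 h3) v W.2.2 W'.2.2)
    refine ⟨f, ?_, hf⟩
    refine (Nat.bijective_iff_injective_and_card f).2 ⟨hinj, ?_⟩
    rw [hcard, ← hL K v hv]
    exact Nat.card_coe_set_eq _
  refine ⟨fun i => hB K (C i) (h2 i) (fun v hv => ?_) (hdis i), fun i j hij => ?_⟩
  · obtain ⟨f, hf, hfC⟩ := key v hv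
    obtain ⟨W, hW⟩ := hf.2 i
    exact ⟨W.1, hW ▸ hfC W, W.2.2⟩
  · rw [Set.disjoint_left]
    intro W hWi hWj
    have hne : W ≠ ⊥ := by
      intro h
      have := h2 i W hWi
      rw [h, finrank_bot] at this
      omega
    obtain ⟨v, hvW, hv⟩ := Submodule.exists_mem_ne_zero_of_ne_bot hne
    obtain ⟨f, hf, hfC⟩ := key v hv
    have huniq : ∀ k, W ∈ C k → ∀ W1 : {W : Submodule K (Fin 4 → K) |
        Module.finrank K W = 2 ∧ v ∈ W}, f W1 = k → W1.1 = W := by
      intro k hk W1 h1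
      by_contra hne'
      have h3 := hdis k W1.1 (h1 ▸ hfC W1) W hk hne'
      exact hv ((Submodule.disjoint_def.1 h3) v W1.2.2 hvW)
    obtain ⟨W1, hW1⟩ := hf.2 i
    obtain ⟨W2, hW2⟩ := hf.2 j
    have h5 : W1 = W2 := Subtype.ext ((huniq i hWi W1 hW1).trans (huniq j hWj W2 hW2).symm)
    exact hij (by rw [← hW1, ← hW2, h5])

end H74PK
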